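import Mathlib

/-! Complex analysis lemmas: rectangles, sign of a contour integral, minimum modulus. -/

namespace Pool.Agent.MP_f0209c_nt
open Complex Set Metric Filter Topology intervalIntegral MeasureTheory

/-- moving a vertical segment -/
lemma rect_bound {f : ℂ → ℂ} {a a' A B M₁ M₂ : ℝ} (hAB : A ≤ B)
    (hf : DifferentiableOn ℂ f (uIcc a' a ×ℂ uIcc A B))
    (h₁ : ∀ t ∈ Icc A B, ‖f (a' + t * I)‖ ≤ M₁)
    (h₂ : ∀ x ∈ uIcc a' a, ‖f (x + A * I)‖ ≤ M₂) (h₃ : ∀ x ∈ uIcc a' a, ‖f (x + B * I)‖ ≤ M₂) :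
    ‖∫ t in A..B, f (a + t * I)‖ ≤ M₁ * (B - A) + 2 * (M₂ * |a - a'|) := by
  have h := integral_boundary_rect_eq_zero_of_differentiableOn f (a' + A * I) (a + B * I)
    (by simpa using hf)
  simp only [add_re, ofReal_re, mul_re, I_re, mul_zero, ofReal_im, I_im, mul_one, sub_self,
    add_zero, add_im, mul_im, zero_add, smul_eq_mul] at h
  have e1 : ‖∫ t in A..B, f (a' + t * I)‖ ≤ M₁ * |B - A| :=
    norm_integral_le_of_norm_le_const fun t ht => h₁ t (by
      rw [uIoc_of_le hAB] at ht; exact Ioc_subset_Icc_self ht)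
  have e2 : ‖∫ x in a'..a, f (x + A * I)‖ ≤ M₂ * |a - a'| :=
    norm_integral_le_of_norm_le_const fun t ht => h₂ t (uIoc_subset_uIcc ht)
  have e3 : ‖∫ x in a'..a, f (x + B * I)‖ ≤ M₂ * |a - a'| :=
    norm_integral_le_of_norm_le_const fun t ht => h₃ t (uIoc_subset_uIcc ht)
  rw [abs_of_nonneg (by linarith)] at e1
  have e4 : I * (∫ t in A..B, f (a + t * I)) = I * (∫ t in A..B, f (a' + t * I)) +
      ((∫ x in a'..a, f (x + B * I)) - ∫ x in a'..a, f (x + A * I)) := by
    linear_combination h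
  have e5 : ‖∫ t in A..B, f (a + t * I)‖ = ‖I * (∫ t in A..B, f (a + t * I))‖ := by simp
  rw [e5, e4]
  refine (norm_add_le _ _).trans ?_
  have e6 := norm_sub_le (∫ x in a'..a, f (x + B * I)) (∫ x in a'..a, f (x + A * I))
  rw [norm_mul, norm_I, one_mul]
  linarith

/-- the integral over the boundary of a rectangle -/
noncomputable def bdry (a' a A B : ℝ) (f : ℂ → ℂ) : ℂ :=
  (∫ x in a'..a, f (x + A * I)) - (∫ x in a'..a, f (x + B * I)) +
    I * (∫ t in A..B, f (a + t * I)) - I * (∫ t in A..B, f (a' + t * I))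

/-- continuity along the four sides -/
structure Sides (a' a A B : ℝ) (f : ℂ → ℂ) : Prop where
  bot : ContinuousOn (fun x : ℝ => f (x + A * I)) (uIcc a' a)
  top : ContinuousOn (fun x : ℝ => f (x + B * I)) (uIcc a' a)
  rgt : ContinuousOn (fun t : ℝ => f (a + t * I)) (uIcc A B)
  lft : ContinuousOn (fun t : ℝ => f (a' + t * I)) (uIcc A B)

lemma Sides.add {a' a A B : ℝ} {f g : ℂ → ℂ} (hf : Sides a' a A B f) (hg : Sides a' a A B g) :
    Sides a' a A B (fun s => f s + g s) :=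
  ⟨hf.bot.add hg.bot, hf.top.add hg.top, hf.rgt.add hg.rgt, hf.lft.add hg.lft⟩

lemma bdry_add {a' a A B : ℝ} {f g : ℂ → ℂ} (hf : Sides a' a A B f) (hg : Sides a' a A B g) :
    bdry a' a A B (fun s => f s + g s) = bdry a' a A B f + bdry a' a A B g := by
  unfold bdry
  rw [integral_add hf.bot.intervalIntegrable hg.bot.intervalIntegrable,
    integral_add hf.top.intervalIntegrable hg.top.intervalIntegrable,
    integral_add hf.rgt.intervalIntegrable hg.rgt.intervalIntegrable,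
    integral_add hf.lft.intervalIntegrable hg.lft.intervalIntegrable]
  ring

lemma bdry_congr {a' a A B : ℝ} {f g : ℂ → ℂ}
    (h : ∀ s : ℂ, s.re ∈ uIcc a' a → s.im ∈ uIcc A B →
      (s.re = a' ∨ s.re = a ∨ s.im = A ∨ s.im = B) → f s = g s) :
    bdry a' a A B f = bdry a' a A B g := by
  unfold bdry
  rw [integral_congr (f := fun x : ℝ => f (x + A * I)) (g := fun x : ℝ => g (x + A * I))
      fun x hx => h _ (by simpa using hx) (by simp) (by simp),
    integral_congr (f := fun x : ℝ => f (x + B * I)) (g := fun x : ℝ => g (x + B * I))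
      fun x hx => h _ (by simpa using hx) (by simp) (by simp),
    integral_congr (f := fun x : ℝ => f (a + x * I)) (g := fun x : ℝ => g (a + x * I))
      fun x hx => h _ (by simp) (by simpa using hx) (by simp),
    integral_congr (f := fun x : ℝ => f (a' + x * I)) (g := fun x : ℝ => g (a' + x * I))
      fun x hx => h _ (by simp) (by simpa using hx) (by simp)]

lemma sides_of_cont {a' a A B : ℝ} {f : ℂ → ℂ}
    (h : ∀ s : ℂ, s.re ∈ uIcc a' a → s.im ∈ uIcc A B →
      (s.re = a' ∨ s.re = a ∨ s.im = A ∨ s.im = B) → ContinuousAt f s) : Sides a' a A B f := by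
  refine ⟨fun x hx => ?_, fun x hx => ?_, fun x hx => ?_, fun x hx => ?_⟩
  · exact (ContinuousAt.comp (f := fun x : ℝ => (x : ℂ) + A * I)
      (h _ (by simpa using hx) (by simp) (by simp)) (by fun_prop)).continuousWithinAt
  · exact (ContinuousAt.comp (f := fun x : ℝ => (x : ℂ) + B * I)
      (h _ (by simpa using hx) (by simp) (by simp)) (by fun_prop)).continuousWithinAt
  · exact (ContinuousAt.comp (f := fun x : ℝ => (a : ℂ) + x * I)
      (h _ (by simp) (by simpa using hx) (by simp)) (by fun_prop)).continuousWithinAt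
  · exact (ContinuousAt.comp (f := fun x : ℝ => (a' : ℂ) + x * I)
      (h _ (by simp) (by simpa using hx) (by simp)) (by fun_prop)).continuousWithinAt

lemma sides_pole {a' a A B : ℝ} {ρ : ℂ} (c : ℂ) (h₁ : a' < ρ.re) (h₂ : ρ.re < a) (h₃ : A < ρ.im)
    (h₄ : ρ.im < B) : Sides a' a A B (fun s => c / (s - ρ)) := by
  refine sides_of_cont fun s _ _ hs => continuousAt_const.div (by fun_prop) fun h => ?_
  rw [sub_eq_zero] at h
  subst h
  rcases hs with h | h | h | h <;> linarith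

lemma re_integral_nonpos {f : ℝ → ℂ} {a b : ℝ} (hab : a ≤ b) (hf : ContinuousOn f (uIcc a b))
    (h : ∀ x, (f x).re ≤ 0) : (∫ x in a..b, f x).re ≤ 0 := by
  have e := (reCLM.intervalIntegral_comp_comm (hf.intervalIntegrable (μ := volume))).symm
  simp only [reCLM_apply] at e
  rw [e]
  have := integral_nonneg (μ := volume) (f := fun x => -(f x).re) hab fun x _ => by
    linarith [h x]
  rw [intervalIntegral.integral_neg] at this
  linarith

lemma re_bdry_pole {a' a A B c : ℝ} {ρ : ℂ} (hc : 0 ≤ c) (h₁ : a' < ρ.re) (h₂ : ρ.re < a)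
    (h₃ : A < ρ.im) (h₄ : ρ.im < B) : (bdry a' a A B (fun s => I * c / (s - ρ))).re ≤ 0 := by
  have S := sides_pole (I * c) h₁ h₂ h₃ h₄
  have key : ∀ w : ℂ, (I * c / w).re = c * w.im / normSq w ∧
      (I * (I * c / w)).re = -(c * w.re / normSq w) := fun w => by
    simp [div_re, div_im]
  have n0 : ∀ w : ℂ, 0 ≤ normSq w := normSq_nonneg
  have e1 := re_integral_nonpos (by linarith) S.bot fun x => by
    rw [(key _).1]
    exact div_nonpos_of_nonpos_of_nonneg
      (mul_nonpos_of_nonneg_of_nonpos hc (by simp; linarith)) (n0 _)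
  have e2 := re_integral_nonpos (by linarith) S.top.neg fun x => by
    rw [Pi.neg_apply, neg_re, (key _).1, neg_nonpos]
    exact div_nonneg (mul_nonneg hc (by simp; linarith)) (n0 _)
  have e3 := re_integral_nonpos (by linarith) ((continuousOn_const (c := I)).mul S.rgt) fun x => by
    rw [Pi.mul_apply, (key _).2, neg_nonpos]
    exact div_nonneg (mul_nonneg hc (by simp; linarith)) (n0 _)
  have e4 := re_integral_nonpos (by linarith) ((continuousOn_const (c := I)).mul S.lft).neg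
    fun x => by
      rw [Pi.neg_apply, Pi.mul_apply, neg_re, (key _).2, neg_neg]
      exact div_nonpos_of_nonpos_of_nonneg
        (mul_nonpos_of_nonneg_of_nonpos hc (by simp; linarith)) (n0 _)
  simp only [Pi.neg_apply, Pi.mul_apply, intervalIntegral.integral_neg,
    intervalIntegral.integral_const_mul, neg_re] at e2 e3 e4
  unfold bdry
  rw [sub_re, add_re, sub_re]
  linarith

/-- removing simple zeros -/
lemma factor {U : Set ℂ} (hU : IsOpen U) {f : ℂ → ℂ} (hf : DifferentiableOn ℂ f U) (S : Finset ℂ)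
    (hS : ∀ ρ ∈ S, ρ ∈ U ∧ f ρ = 0) :
    ∃ g : ℂ → ℂ, DifferentiableOn ℂ g U ∧ ∀ s ∈ U, f s = (∏ ρ ∈ S, (s - ρ)) * g s := by
  classical
  induction S using Finset.induction_on with
  | empty => exact ⟨f, hf, by simp⟩
  | insert ρ S hρ ih =>
    obtain ⟨g, hg, e⟩ := ih fun x hx => hS x (Finset.mem_insert_of_mem hx)
    obtain ⟨h1, h2⟩ := hS ρ (Finset.mem_insert_self _ _)
    have h3 : g ρ = 0 := by
      have := e ρ h1
      rw [h2] at this
      refine (mul_eq_zero.1 this.symm).resolve_left (Finset.prod_ne_zero_iff.2 fun x hx h => ?_)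
      rw [sub_eq_zero] at h
      exact hρ (h ▸ hx)
    refine ⟨dslope g ρ, (differentiableOn_dslope (hU.mem_nhds h1)).2 hg, fun s hs => ?_⟩
    have := sub_smul_dslope g ρ s
    rw [h3, sub_zero, smul_eq_mul] at this
    rw [e s hs, Finset.prod_insert hρ, ← this]
    ring

lemma factor_ne {U : Set ℂ} (hU : IsOpen U) {f g : ℂ → ℂ} (hg : DifferentiableOn ℂ g U)
    {S : Finset ℂ} (e : ∀ s ∈ U, f s = (∏ ρ ∈ S, (s - ρ)) * g s) {ρ : ℂ} (hρ : ρ ∈ S)
    (hU' : ρ ∈ U) : deriv f ρ = (∏ x ∈ S.erase ρ, (ρ - x)) * g ρ := by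
  classical
  have h1 : f =ᶠ[𝓝 ρ] fun s => (s - ρ) * ((∏ x ∈ S.erase ρ, (s - x)) * g s) := by
    filter_upwards [hU.mem_nhds hU'] with s hs
    rw [e s hs, ← Finset.mul_prod_erase S (fun x => s - x) hρ]; ring
  have h2 : DifferentiableAt ℂ (fun s => (∏ x ∈ S.erase ρ, (s - x)) * g s) ρ :=
    DifferentiableAt.mul (by fun_prop) (hg.differentiableAt (hU.mem_nhds hU'))
  have h3 := ((hasDerivAt_id ρ).sub_const ρ).mul h2.hasDerivAt
  rw [h1.deriv_eq]
  have := h3.deriv
  simp only [id, sub_self, zero_mul, add_zero, one_mul] at this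
  exact this

lemma res_aux {a' a A B : ℝ} {V : Set ℂ} (hV : IsOpen V) (hR : uIcc a' a ×ℂ uIcc A B ⊆ V)
    (ha : a' ≤ a) (hAB : A ≤ B) (S : Finset ℂ)
    (hS : ∀ ρ ∈ S, a' < ρ.re ∧ ρ.re < a ∧ A < ρ.im ∧ ρ.im < B) :
    ∀ M : ℂ → ℂ, DifferentiableOn ℂ M V →
      (∀ ρ ∈ S, ∃ c : ℝ, 0 ≤ c ∧ M ρ / ∏ x ∈ S.erase ρ, (ρ - x) = I * c) →
      (bdry a' a A B fun s => M s / ∏ x ∈ S, (s - x)).re ≤ 0 := by
  classical
  induction S using Finset.induction_on with
  | empty =>
    intro M hM _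
    have h := integral_boundary_rect_eq_zero_of_differentiableOn M (a' + A * I) (a + B * I)
      (by simpa using hM.mono hR)
    simp only [add_re, ofReal_re, mul_re, I_re, mul_zero, ofReal_im, I_im, mul_one, sub_self,
      add_zero, add_im, mul_im, zero_add, smul_eq_mul] at h
    simp only [Finset.prod_empty, div_one, bdry]
    rw [h]; simp
  | insert ρ S hρ ih =>
    intro M hM hc
    obtain ⟨r1, r2, r3, r4⟩ := hS ρ (Finset.mem_insert_self _ _)
    have hS' := fun x hx => hS x (Finset.mem_insert_of_mem hx)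
    have hρV : ρ ∈ V := hR ⟨by rw [uIcc_of_le ha]; exact ⟨r1.le, r2.le⟩,
      by rw [uIcc_of_le hAB]; exact ⟨r3.le, r4.le⟩⟩
    obtain ⟨c, c0, ec⟩ := hc ρ (Finset.mem_insert_self _ _)
    rw [Finset.erase_insert hρ] at ec
    have hP : ∀ s : ℂ, s ∉ S → ∏ x ∈ S, (s - x) ≠ 0 := fun s hs =>
      Finset.prod_ne_zero_iff.2 fun x hx h => hs (by rw [sub_eq_zero] at h; exact h ▸ hx)
    set M₀ : ℂ → ℂ := fun s => M s - I * c * ∏ x ∈ S, (s - x) with hM₀
    have d0 : DifferentiableOn ℂ M₀ V := hM.sub (by fun_prop)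
    have z0 : M₀ ρ = 0 := by
      rw [hM₀]; dsimp only; rw [← ec, div_mul_cancel₀ _ (hP ρ hρ), sub_self]
    have d1 : DifferentiableOn ℂ (dslope M₀ ρ) V := (differentiableOn_dslope (hV.mem_nhds hρV)).2 d0
    have e1 : ∀ s, s ≠ ρ → dslope M₀ ρ s = M₀ s / (s - ρ) := fun s hs => by
      rw [dslope_of_ne _ hs, slope_def_field, z0, sub_zero]
    have h1 := ih hS' (dslope M₀ ρ) d1 fun x hx => by
      obtain ⟨c', c0', ec'⟩ := hc x (Finset.mem_insert_of_mem hx)
      have hne : x ≠ ρ := fun h => hρ (h ▸ hx)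
      refine ⟨c', c0', ?_⟩
      rw [Finset.erase_insert_of_ne hne.symm, Finset.prod_insert (by simp [hρ])] at ec'
      rw [e1 x hne, ← ec', hM₀]
      dsimp only
      rw [Finset.prod_eq_zero hx (sub_self x), mul_zero, sub_zero, div_div]
    have hb : ∀ s : ℂ, (s.re = a' ∨ s.re = a ∨ s.im = A ∨ s.im = B) → s ≠ ρ ∧ s ∉ S := fun s hs =>
      ⟨fun h => by subst h; rcases hs with h | h | h | h <;> linarith, fun h => by
        obtain ⟨q1, q2, q3, q4⟩ := hS' s h
        rcases hs with h | h | h | h <;> linarith⟩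
    rw [bdry_congr (g := fun s => I * c / (s - ρ) + dslope M₀ ρ s / ∏ x ∈ S, (s - x))
      fun s _ _ hs => by
        have q1 := sub_ne_zero.2 (hb s hs).1
        have q2 := hP s (hb s hs).2
        rw [e1 s (hb s hs).1, Finset.prod_insert hρ, hM₀]
        field_simp
        ring]
    rw [bdry_add (g := fun s => dslope M₀ ρ s / ∏ x ∈ S, (s - x)) (sides_pole _ r1 r2 r3 r4)
      (sides_of_cont fun s s1 s2 hs =>
      (d1.differentiableAt (hV.mem_nhds (hR ⟨s1, s2⟩))).continuousAt.div (by fun_prop)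
        (hP s (hb s hs).2)), add_re]
    linarith [re_bdry_pole c0 r1 r2 r3 r4]

/-- sign of a contour integral all of whose residues lie on the positive imaginary axis -/
lemma res_sign {a' a A B : ℝ} {U : Set ℂ} (hU : IsOpen U) (hR : uIcc a' a ×ℂ uIcc A B ⊆ U)
    (ha : a' ≤ a) (hAB : A ≤ B) {N F : ℂ → ℂ} (hN : DifferentiableOn ℂ N U)
    (hF : DifferentiableOn ℂ F U) (S : Finset ℂ)
    (hS : ∀ ρ ∈ S, a' < ρ.re ∧ ρ.re < a ∧ A < ρ.im ∧ ρ.im < B)
    (hz : ∀ ρ ∈ S, F ρ = 0 ∧ deriv F ρ ≠ 0 ∧ ∃ c : ℝ, 0 ≤ c ∧ N ρ / deriv F ρ = I * c)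
    (hall : ∀ s ∈ uIcc a' a ×ℂ uIcc A B, F s = 0 → s ∈ S) :
    (bdry a' a A B fun s => N s / F s).re ≤ 0 := by
  classical
  have hSU : ∀ ρ ∈ S, ρ ∈ U := fun ρ hρ => by
    obtain ⟨r1, r2, r3, r4⟩ := hS ρ hρ
    exact hR ⟨by rw [uIcc_of_le ha]; exact ⟨r1.le, r2.le⟩,
      by rw [uIcc_of_le hAB]; exact ⟨r3.le, r4.le⟩⟩
  obtain ⟨g, hg, e⟩ := factor hU hF S fun ρ hρ => ⟨hSU ρ hρ, (hz ρ hρ).1⟩
  have hV : IsOpen (U ∩ g ⁻¹' {0}ᶜ) :=
    hg.continuousOn.isOpen_inter_preimage hU isOpen_compl_singleton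
  have hRV : uIcc a' a ×ℂ uIcc A B ⊆ U ∩ g ⁻¹' {0}ᶜ := fun s hs => ⟨hR hs, fun h0 => by
    have h0' : g s = 0 := h0
    have h1 : s ∈ S := hall s hs (by rw [e s (hR hs), h0', mul_zero])
    exact (hz s h1).2.1 (by rw [factor_ne hU hg e h1 (hR hs), h0', mul_zero])⟩
  have := res_aux hV hRV ha hAB S hS (fun s => N s / g s)
    ((hN.mono inter_subset_left).div (hg.mono inter_subset_left) fun s hs => hs.2) fun ρ hρ => by
      obtain ⟨c, c0, ec⟩ := (hz ρ hρ).2.2
      refine ⟨c, c0, ?_⟩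
      rw [← ec, factor_ne hU hg e hρ (hSU ρ hρ), div_div, mul_comm]
  rwa [bdry_congr (g := fun s => N s / F s) fun s s1 s2 _ => by
    rw [e s (hR ⟨s1, s2⟩), div_div, mul_comm]] at this

lemma exists_log {c : ℂ} {r : ℝ} (hr : 0 < r) {g : ℂ → ℂ} (hg : DifferentiableOn ℂ g (ball c r))
    (h0 : ∀ s ∈ ball c r, g s ≠ 0) : ∃ l : ℂ → ℂ, DifferentiableOn ℂ l (ball c r) ∧ l c = 0 ∧
      ∀ s ∈ ball c r, g s = g c * exp (l s) := by
  have h1 : DifferentiableOn ℂ (fun s => deriv g s / g s) (ball c r) :=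
    (hg.deriv isOpen_ball).div hg h0
  obtain ⟨l, l0, hl⟩ := h1.isExactOn_ball.with_val_at c 0
  have hd : DifferentiableOn ℂ l (ball c r) := fun s hs =>
    (hl s hs).differentiableAt.differentiableWithinAt
  refine ⟨l, hd, l0, fun s hs => ?_⟩
  have h2 : ∀ z ∈ ball c r, HasDerivAt (fun z => g z * exp (-l z)) 0 z := fun z hz => by
    have a1 := (hg.differentiableAt (isOpen_ball.mem_nhds hz)).hasDerivAt
    have a2 := a1.mul (hl z hz).neg.cexp
    have := h0 z hz
    refine a2.congr_deriv ?_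
    simp only [Pi.neg_apply]
    field_simp
    ring
  have h3 := isOpen_ball.is_const_of_deriv_eq_zero (convex_ball c r).isPreconnected
    (fun z hz => (h2 z hz).differentiableAt.differentiableWithinAt)
    (fun z hz => (h2 z hz).deriv) hs (mem_ball_self hr)
  rw [l0, neg_zero, exp_zero, mul_one] at h3
  rw [← h3, mul_assoc, ← exp_add]; simp

/-- minimum modulus away from the zeros -/
lemma lower_bound {f : ℂ → ℂ} {c : ℂ} (hf : DifferentiableOn ℂ f (ball c (39 / 10)))
    (S : Finset ℂ) (hS : ∀ ρ ∈ S, ρ ∈ ball c (36 / 10) ∧ f ρ = 0 ∧ deriv f ρ ≠ 0)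
    (hall : ∀ z ∈ ball c (36 / 10), f z = 0 → z ∈ S) {A B : ℝ} (hA : 0 ≤ A)
    (hM : ∀ z ∈ ball c (39 / 10), ‖f z‖ ≤ Real.exp A) (hm : Real.exp (-A) ≤ ‖f c‖)
    {s : ℂ} (hs : ‖s - c‖ ≤ 35 / 10) (hη : ∀ ρ ∈ S, Real.exp (-B) ≤ ‖s - ρ‖) :
    Real.exp (-(141 * A + S.card * (B + 282) + 70)) ≤ ‖f s‖ := by
  have hsub : ball c (36 / 10) ⊆ ball c (39 / 10) := ball_subset_ball (by norm_num)
  obtain ⟨g, hg, e⟩ := factor isOpen_ball hf S fun ρ hρ => ⟨hsub (hS ρ hρ).1, (hS ρ hρ).2.1⟩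
  have g0 : ∀ z ∈ ball c (36 / 10), g z ≠ 0 := fun z hz h0 => by
    have h1 : z ∈ S := hall z hz (by rw [e z (hsub hz), h0, mul_zero])
    exact (hS z h1).2.2 (by rw [factor_ne isOpen_ball hg e h1 (hsub hz), h0, mul_zero])
  set N : ℕ := S.card with hN
  have hN0 : (0 : ℝ) ≤ N := by positivity
  have e2 : Real.exp (-2) ≤ 2 / 10 := by
    rw [Real.exp_neg, inv_le_comm₀ (Real.exp_pos _) (by norm_num)]
    have := Real.quadratic_le_exp_of_nonneg (x := 2) (by norm_num)
    linarith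
  have e3 : (36 / 10 : ℝ) ≤ Real.exp 2 := by
    have := Real.quadratic_le_exp_of_nonneg (x := 2) (by norm_num)
    linarith
  have up : ∀ z ∈ ball c (36 / 10), ‖g z‖ ≤ Real.exp (A + 2 * N) := fun z hz => by
    refine norm_le_of_forall_mem_frontier_norm_le (U := ball c (38 / 10)) isBounded_ball
      ((hg.mono ?_).diffContOnCl) (fun w hw => ?_)
      (subset_closure (ball_subset_ball (by norm_num) hz))
    · exact closure_ball_subset_closedBall.trans (closedBall_subset_ball (by norm_num))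
    · rw [frontier_ball c (by norm_num), mem_sphere_iff_norm] at hw
      have hw' : w ∈ ball c (39 / 10) := by rw [mem_ball_iff_norm, hw]; norm_num
      have h1 : Real.exp (-2) ^ N ≤ ‖∏ ρ ∈ S, (w - ρ)‖ := by
        rw [norm_prod, hN, ← Finset.prod_const]
        refine Finset.prod_le_prod (fun _ _ => (Real.exp_pos _).le) fun ρ hρ => e2.trans ?_
        have a1 := mem_ball_iff_norm.1 (hS ρ hρ).1
        have a2 := norm_sub_le_norm_sub_add_norm_sub w ρ c
        linarith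
      have h2 := hM w hw'
      rw [e w hw', norm_mul] at h2
      have h3 : Real.exp (-2) ^ N * ‖g w‖ ≤ Real.exp A :=
        (mul_le_mul_of_nonneg_right h1 (norm_nonneg _)).trans h2
      rw [← Real.exp_nat_mul, ← le_div_iff₀' (Real.exp_pos _), ← Real.exp_sub] at h3
      exact h3.trans (le_of_eq (by ring_nf))
  have lo : Real.exp (-(A + 2 * N)) ≤ ‖g c‖ := by
    have h1 : ‖∏ ρ ∈ S, (c - ρ)‖ ≤ Real.exp 2 ^ N := by
      rw [norm_prod, hN, ← Finset.prod_const]
      refine Finset.prod_le_prod (fun _ _ => norm_nonneg _) fun ρ hρ => le_trans ?_ e3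
      rw [norm_sub_rev]; exact (mem_ball_iff_norm.1 (hS ρ hρ).1).le
    rw [e c (mem_ball_self (by norm_num)), norm_mul] at hm
    have h3 : Real.exp (-A) ≤ Real.exp 2 ^ N * ‖g c‖ :=
      hm.trans (mul_le_mul_of_nonneg_right h1 (norm_nonneg _))
    rw [← Real.exp_nat_mul, ← div_le_iff₀' (Real.exp_pos _), ← Real.exp_sub] at h3
    exact le_trans (le_of_eq (by ring_nf)) h3
  obtain ⟨l, hl, l0, el⟩ := exists_log (by norm_num) (hg.mono hsub) g0
  have hre : ∀ z ∈ ball c (36 / 10), (l z).re ≤ 2 * A + 4 * N + 1 := fun z hz => by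
    have h1 := up z hz
    rw [el z hz, norm_mul, norm_exp] at h1
    have h2 : Real.exp (-(A + 2 * N)) * Real.exp (l z).re ≤ Real.exp (A + 2 * N) :=
      (mul_le_mul_of_nonneg_right lo (Real.exp_pos _).le).trans h1
    rw [← Real.exp_add, Real.exp_le_exp] at h2
    linarith
  have hmap : ∀ z ∈ ball (0 : ℂ) (36 / 10), c + z ∈ ball c (36 / 10) := fun z hz => by
    simpa using hz
  have hbc := borelCaratheodory_zero (f := fun z => l (c + z)) (M := 2 * A + 4 * N + 1)
    (R := 36 / 10) (z := s - c) (by positivity) (hl.comp (by fun_prop) hmap)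
    (fun z hz => hre _ (hmap z hz)) (by norm_num) (by rw [mem_ball_zero_iff]; linarith)
    (by simpa using l0)
  have hs' : s ∈ ball c (36 / 10) := by rw [mem_ball_iff_norm]; linarith
  simp only [add_sub_cancel] at hbc
  have hb2 : ‖l s‖ ≤ 70 * (2 * A + 4 * N + 1) := by
    refine hbc.trans ?_
    rw [div_le_iff₀ (by linarith)]
    have : 0 ≤ 2 * A + 4 * N + 1 := by positivity
    nlinarith
  have h1 : Real.exp (-B) ^ N ≤ ‖∏ ρ ∈ S, (s - ρ)‖ := by
    rw [norm_prod, hN, ← Finset.prod_const]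
    exact Finset.prod_le_prod (fun _ _ => (Real.exp_pos _).le) hη
  have h2 : Real.exp (-(70 * (2 * A + 4 * N + 1))) ≤ Real.exp (l s).re := by
    rw [Real.exp_le_exp]
    linarith [neg_le_abs (l s).re, abs_re_le_norm (l s)]
  rw [e s (hsub hs'), el s hs', norm_mul, norm_mul, norm_exp]
  calc _ = Real.exp (-B) ^ N * (Real.exp (-(A + 2 * N)) *
        Real.exp (-(70 * (2 * A + 4 * N + 1)))) := by
        rw [← Real.exp_nat_mul, ← Real.exp_add, ← Real.exp_add]; ring_nf
    _ ≤ _ := mul_le_mul h1 (mul_le_mul lo h2 (Real.exp_pos _).le (norm_nonneg _))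
        (by positivity) (norm_nonneg _)

end Pool.Agent.MP_f0209c_nt
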