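import Mathlib

/-! Bounds for the zeta function and symmetries of the completed zeta function. -/

namespace Pool.Agent.MP_f0209c_nt
open Complex Set Metric Filter Topology ComplexConjugate

lemma hasDerivAt_pw (w : ℂ) {x : ℝ} (hx : 0 < x) :
    HasDerivAt (fun y : ℝ => exp (w * Real.log y)) (w * exp ((w - 1) * Real.log x)) x := by
  have h1 : HasDerivAt (fun y : ℝ => ((Real.log y : ℝ) : ℂ)) ((x⁻¹ : ℝ) : ℂ) x :=
    (Real.hasDerivAt_log hx.ne').ofReal_comp
  refine (h1.const_mul w).cexp.congr_deriv ?_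
  have : exp (Real.log x : ℂ) = x := by rw [← ofReal_exp, Real.exp_log hx]
  have hx' : (x : ℂ) ≠ 0 := by exact_mod_cast hx.ne'
  rw [sub_mul, one_mul, exp_sub, this]
  push_cast
  field_simp

lemma norm_pw (w : ℂ) {x : ℝ} (hx : 0 < x) : ‖exp (w * Real.log x)‖ = x ^ w.re := by
  rw [norm_exp, Real.rpow_def_of_pos hx]; simp [mul_comm]

lemma pw_nat (w : ℂ) {n : ℕ} (hn : n ≠ 0) : (n : ℂ) ^ w = exp (w * Real.log n) := by
  rw [cpow_def_of_ne_zero (by exact_mod_cast hn), ← natCast_log, mul_comm]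

/-- remainder terms -/
noncomputable def zt (n : ℕ) (s : ℂ) : ℂ :=
  exp (-s * Real.log (n + 1 : ℝ)) -
    (exp ((1 - s) * Real.log (n + 1 + 1 : ℝ)) - exp ((1 - s) * Real.log (n + 1 : ℝ))) / (1 - s)

lemma norm_zt (n : ℕ) {s : ℂ} (h0 : 1 / 10 ≤ s.re) (h1 : s ≠ 1) :
    ‖zt n s‖ ≤ ‖s‖ * (n + 1 : ℝ) ^ (-(11 / 10) : ℝ) := by
  set a : ℝ := n + 1 with ha
  have a1 : 1 ≤ a := by rw [ha]; linarith [(n.cast_nonneg : (0 : ℝ) ≤ n)]
  have hs : 1 - s ≠ 0 := sub_ne_zero.2 h1.symm
  set C := ‖s‖ * a ^ (-(11 / 10) : ℝ) with hC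
  have C0 : 0 ≤ C := by positivity
  have p1 : ∀ x ∈ Icc a (a + 1), ‖exp (-s * Real.log x) - exp (-s * Real.log a)‖ ≤ C * (x - a) :=
    norm_image_sub_le_of_norm_deriv_le_segment'
      (f := fun y : ℝ => exp (-s * Real.log y)) (f' := fun x => -s * exp ((-s - 1) * Real.log x))
      (fun x hx => (hasDerivAt_pw (-s) (by linarith [hx.1])).hasDerivWithinAt) fun x hx => by
        rw [norm_mul, norm_neg, norm_pw _ (by linarith [hx.1])]
        refine mul_le_mul_of_nonneg_left ?_ (norm_nonneg _)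
        refine (Real.rpow_le_rpow_of_exponent_le (by linarith [hx.1])
          (z := -(11 / 10)) (by simp; linarith)).trans ?_
        exact Real.rpow_le_rpow_of_nonpos (by linarith) hx.1 (by norm_num)
  have p2 := norm_image_sub_le_of_norm_deriv_le_segment' (C := C)
      (f := fun y : ℝ => y * exp (-s * Real.log a) - exp ((1 - s) * Real.log y) / (1 - s))
      (f' := fun x => exp (-s * Real.log a) - exp (-s * Real.log x)) (a := a) (b := a + 1)
      (fun x hx => by
        have d1 := (hasDerivAt_pw (1 - s) (x := x) (by linarith [hx.1])).div_const (1 - s)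
        have d2 : HasDerivAt (fun y : ℝ => (y : ℂ) * exp (-s * Real.log a))
            (1 * exp (-s * Real.log a)) x := (ofRealCLM.hasDerivAt).mul_const _
        refine ((d2.sub d1).congr_deriv ?_).hasDerivWithinAt
        rw [mul_div_cancel_left₀ _ hs, one_mul, show 1 - s - 1 = -s by ring])
      (fun x hx => by
        rw [norm_sub_rev]
        refine (p1 x (Ico_subset_Icc_self hx)).trans ?_
        nlinarith [hx.2]) (a + 1) (right_mem_Icc.2 (by linarith))
  refine le_trans (le_of_eq ?_) (p2.trans (le_of_eq (by ring)))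
  unfold zt
  rw [← ha]
  push_cast
  congr 1
  ring

lemma summable_11 : Summable fun n : ℕ => (n + 1 : ℝ) ^ (-(11 / 10) : ℝ) := by
  have := (summable_nat_add_iff 1).2 (Real.summable_nat_rpow.2 (by norm_num : (-(11 / 10) : ℝ) < -1))
  simpa using this

lemma zeta_eq_of_one_lt {s : ℂ} (hs : 1 < s.re) : riemannZeta s = 1 / (s - 1) + ∑' n, zt n s := by
  have h1 : s ≠ 1 := fun h => by simp [h] at hs
  have hs1 : 1 - s ≠ 0 := sub_ne_zero.2 h1.symm
  have hz : Summable fun n => zt n s :=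
    (summable_11.mul_left ‖s‖).of_norm_bounded fun n => norm_zt n (by linarith) h1
  have t1 := hz.hasSum.tendsto_sum_nat
  have hsum : Summable fun n : ℕ => 1 / (n + 1 : ℂ) ^ s := by
    have := (summable_nat_add_iff 1).2 (summable_one_div_nat_cpow.2 hs)
    simpa using this
  have t2 := hsum.hasSum.tendsto_sum_nat
  rw [← zeta_eq_tsum_one_div_nat_add_one_cpow hs] at t2
  have t3 : Tendsto (fun n : ℕ => exp ((1 - s) * Real.log (n + 1 : ℝ))) atTop (𝓝 0) := by
    rw [tendsto_zero_iff_norm_tendsto_zero]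
    have := (tendsto_rpow_neg_atTop (y := s.re - 1) (by linarith)).comp
      (tendsto_atTop_add_const_right atTop (1 : ℝ) tendsto_natCast_atTop_atTop)
    refine this.congr fun n => ?_
    rw [norm_pw _ (by positivity)]; simp
  have e : ∀ N : ℕ, ∑ n ∈ Finset.range N, zt n s = ∑ n ∈ Finset.range N, 1 / (n + 1 : ℂ) ^ s -
      (exp ((1 - s) * Real.log (N + 1 : ℝ)) - 1) / (1 - s) := fun N => by
    induction N with
    | zero => simp
    | succ N ih =>
      have := pw_nat (-s) (n := N + 1) (by omega)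
      rw [cpow_neg] at this
      rw [Finset.sum_range_succ, Finset.sum_range_succ, ih, zt, one_div]
      push_cast at this ⊢
      rw [this]
      ring
  have t4 := t2.sub ((t3.sub_const 1).div_const (1 - s))
  rw [tendsto_nhds_unique t1 (t4.congr fun N => (e N).symm)]
  have : s - 1 ≠ 0 := sub_ne_zero.2 h1
  field_simp
  ring

lemma zeta_eq {s : ℂ} (h0 : 1 / 10 < s.re) (h1 : 0 < s.im) :
    riemannZeta s = 1 / (s - 1) + ∑' n, zt n s := by
  set R := ‖s‖ + 10 with hR
  set U : Set ℂ := {z | 1 / 10 < z.re} ∩ {z | 0 < z.im} ∩ ball 0 R with hU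
  have Uo : IsOpen U := ((isOpen_lt continuous_const continuous_re).inter
    (isOpen_lt continuous_const continuous_im)).inter isOpen_ball
  have Uc : Convex ℝ U := ((convex_halfSpace_re_gt _).inter (convex_halfSpace_im_gt _)).inter
    (convex_ball _ _)
  have ne1 : ∀ z ∈ U, z ≠ 1 := fun z hz h => by
    have : 0 < z.im := hz.1.2
    simp [h] at this
  have d1 : DifferentiableOn ℂ riemannZeta U := fun z hz =>
    (differentiableAt_riemannZeta (ne1 z hz)).differentiableWithinAt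
  have d2 : DifferentiableOn ℂ (fun z => ∑' n, zt n z) U :=
    differentiableOn_tsum_of_summable_norm (summable_11.mul_left R) (fun n => by
      unfold zt
      refine DifferentiableOn.sub (by fun_prop) (DifferentiableOn.div (by fun_prop) (by fun_prop)
        fun z hz => sub_ne_zero.2 (ne1 z hz).symm)) Uo fun n z hz =>
      (norm_zt n (le_of_lt hz.1.1) (ne1 z hz)).trans (mul_le_mul_of_nonneg_right
        (mem_ball_zero_iff.1 hz.2).le (by positivity))
  have d3 : DifferentiableOn ℂ (fun z => 1 / (z - 1) + ∑' n, zt n z) U :=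
    DifferentiableOn.add (DifferentiableOn.div (by fun_prop) (by fun_prop)
      fun z hz => sub_ne_zero.2 (ne1 z hz)) d2
  have m0 : (2 + I : ℂ) ∈ U := by
    refine ⟨⟨by simp; norm_num, by simp⟩, mem_ball_zero_iff.2 ?_⟩
    have := norm_add_le (2 : ℂ) I
    simp only [Complex.norm_ofNat, norm_I] at this
    linarith [norm_nonneg s]
  refine (d1.analyticOnNhd Uo).eqOn_of_preconnected_of_eventuallyEq (d3.analyticOnNhd Uo)
    Uc.isPreconnected m0 ?_ ⟨⟨h0, h1⟩, mem_ball_zero_iff.2 (by linarith)⟩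
  filter_upwards [(isOpen_lt continuous_const continuous_re).mem_nhds
    (show (2 + I : ℂ) ∈ {z : ℂ | 1 < z.re} by simp)] with z hz
  exact zeta_eq_of_one_lt hz

lemma zeta_upper : ∃ C : ℝ, 1 ≤ C ∧ ∀ s : ℂ, 1 / 10 < s.re → 1 ≤ s.im →
    ‖riemannZeta s‖ ≤ C * ‖s‖ := by
  set K := ∑' n : ℕ, (n + 1 : ℝ) ^ (-(11 / 10) : ℝ) with hK
  have K0 : 0 ≤ K := tsum_nonneg fun n => by positivity
  refine ⟨1 + K, by linarith, fun s h0 h1 => ?_⟩
  have ne1 : s ≠ 1 := fun h => by rw [h] at h1; simp at h1; linarith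
  rw [zeta_eq h0 (by linarith)]
  have e1 : ‖∑' n, zt n s‖ ≤ ‖s‖ * K :=
    tsum_of_norm_bounded (summable_11.hasSum.mul_left ‖s‖) fun n => norm_zt n h0.le ne1
  have e2 : 1 ≤ ‖s‖ := h1.trans ((le_abs_self _).trans (abs_im_le_norm s))
  have e3 : 1 ≤ ‖s - 1‖ := le_trans (by simpa using h1.trans (le_abs_self _)) (abs_im_le_norm _)
  have e4 : ‖1 / (s - 1)‖ ≤ 1 := by
    rw [norm_div, norm_one]; exact div_le_one_of_le₀ e3 (norm_nonneg _)
  refine (norm_add_le _ _).trans ?_
  nlinarith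

lemma zeta_lower : ∃ m : ℝ, 0 < m ∧ ∀ s : ℂ, s.re = 4 → m ≤ ‖riemannZeta s‖ := by
  have hs : LSeriesSummable 1 4 := LSeriesSummable_one_iff.2 (by norm_num)
  set K := ∑' n, ‖LSeries.term 1 4 n‖ with hK
  have K0 : 0 ≤ K := tsum_nonneg fun n => norm_nonneg _
  refine ⟨1 / (K + 1), by positivity, fun s h => ?_⟩
  have h1 : 1 < s.re := by rw [h]; norm_num
  have e := LSeries_one_mul_Lseries_moebius h1
  rw [LSeries_one_eq_riemannZeta h1] at e
  have e1 : ‖LSeries (fun n => (ArithmeticFunction.moebius n : ℂ)) s‖ ≤ K :=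
    tsum_of_norm_bounded hs.norm.hasSum fun n => by
      refine le_trans (LSeries.norm_term_le (g := 1) s ?_)
        (LSeries.norm_term_le_of_re_le_re 1 (by simp [h]) n)
      rw [Pi.one_apply, norm_one, Complex.norm_intCast]
      exact_mod_cast ArithmeticFunction.abs_moebius_le_one
  have e2 := congrArg norm e
  rw [norm_mul, norm_one] at e2
  rw [div_le_iff₀ (by positivity)]
  nlinarith [norm_nonneg (riemannZeta s)]

lemma Gammaℝ_ne {s : ℂ} (h : s.im ≠ 0) : Gammaℝ s ≠ 0 := fun e => by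
  obtain ⟨n, rfl⟩ := Gammaℝ_eq_zero_iff.1 e
  simp at h

lemma lam_eq {s : ℂ} (h : s.im ≠ 0) : completedRiemannZeta s = Gammaℝ s * riemannZeta s := by
  rw [riemannZeta_def_of_ne_zero (fun e => by simp [e] at h), mul_div_cancel₀ _ (Gammaℝ_ne h)]

lemma diff_lam {s : ℂ} (h : s.im ≠ 0) : DifferentiableAt ℂ completedRiemannZeta s :=
  differentiableAt_completedZeta (fun e => by simp [e] at h) (fun e => by simp [e] at h)

lemma diff_zeta {s : ℂ} (h : s.im ≠ 0) : DifferentiableAt ℂ riemannZeta s :=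
  differentiableAt_riemannZeta (fun e => by simp [e] at h)

lemma diff_Gammaℝ {s : ℂ} (h : s.im ≠ 0) : DifferentiableAt ℂ Gammaℝ s := by
  have := (differentiable_Gammaℝ_inv s).fun_inv (inv_ne_zero (Gammaℝ_ne h))
  simpa using this

lemma Gammaℝ_conj (s : ℂ) : Gammaℝ (conj s) = conj (Gammaℝ s) := by
  have h : (Real.pi : ℂ).arg ≠ Real.pi := by
    rw [arg_ofReal_of_nonneg Real.pi_pos.le]; exact Real.pi_pos.ne
  have e1 : -conj s / 2 = conj (-s / 2) := by simp [map_ofNat]
  have e2 : conj s / 2 = conj (s / 2) := by simp [map_ofNat]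
  rw [Gammaℝ_def, Gammaℝ_def, e1, e2, Gamma_conj, cpow_conj _ _ h, conj_ofReal, map_mul]

lemma lam_sym {s : ℂ} (h : s.im ≠ 0) :
    completedRiemannZeta (1 - conj s) = conj (completedRiemannZeta s) := by
  rw [completedRiemannZeta_one_sub, lam_eq (by simpa using h), lam_eq h, Gammaℝ_conj,
    riemannZeta_conj, map_mul]

lemma lam_zero_iff {s : ℂ} (h : s.im ≠ 0) : completedRiemannZeta s = 0 ↔ riemannZeta s = 0 := by
  rw [lam_eq h, mul_eq_zero, or_iff_right (Gammaℝ_ne h)]

lemma zeta_zero_sym {s : ℂ} (h : s.im ≠ 0) (hz : riemannZeta s = 0) :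
    riemannZeta (1 - conj s) = 0 := by
  rw [← lam_zero_iff (by simpa using h), lam_sym h, (lam_zero_iff h).2 hz, map_zero]

lemma deriv_lam_ne {s : ℂ} (h : s.im ≠ 0) (hz : riemannZeta s = 0)
    (hd : deriv riemannZeta s ≠ 0) : deriv completedRiemannZeta s ≠ 0 := by
  have e : completedRiemannZeta =ᶠ[𝓝 s] fun z => Gammaℝ z * riemannZeta z := by
    filter_upwards [(isOpen_ne_fun continuous_im continuous_const).mem_nhds
      (show s ∈ {z : ℂ | z.im ≠ 0} from h)] with z hz
    exact lam_eq hz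
  rw [e.deriv_eq, deriv_fun_mul (diff_Gammaℝ h) (diff_zeta h), hz, mul_zero, zero_add]
  exact mul_ne_zero (Gammaℝ_ne h) hd

lemma lam_real {t : ℝ} (h : t ≠ 0) : (completedRiemannZeta (1 / 2 + t * I)).im = 0 := by
  have := lam_sym (s := 1 / 2 + t * I) (by simpa using h)
  rw [show 1 - conj (1 / 2 + t * I : ℂ) = 1 / 2 + t * I by simp [map_ofNat]; ring] at this
  exact conj_eq_iff_im.1 this.symm

lemma sign_after {u : ℝ → ℝ} {γ h v : ℝ} (hh : 0 < h) (hc : ContinuousOn u (Icc γ (γ + h)))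
    (h0 : u γ = 0) (hd : HasDerivAt u v γ) (hv : 0 < v) (hz : ∀ t ∈ Ioc γ (γ + h), u t ≠ 0) :
    0 ≤ u (γ + h) := by
  by_contra hneg
  have h1 := (hasDerivAt_iff_tendsto_slope_left_right.1 hd).2.eventually (lt_mem_nhds hv)
  obtain ⟨t, ht1, ht2⟩ := (h1.and (Ioo_mem_nhdsGT (show γ < γ + h by linarith))).exists
  rw [slope_def_field, h0, sub_zero] at ht1
  have ht3 : 0 < u t := (div_pos_iff_of_pos_right (by linarith [ht2.1])).1 ht1
  obtain ⟨x, hx1, hx2⟩ := intermediate_value_Icc' ht2.2.le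
    (hc.mono (Icc_subset_Icc_left ht2.1.le)) (show (0 : ℝ) ∈ Icc (u (γ + h)) (u t) from
      ⟨(not_le.1 hneg).le, ht3.le⟩)
  exact hz x ⟨ht2.1.trans_le hx1.1, hx1.2⟩ hx2

/-- the residue of `Λ(s + ih) / Λ(s)` at a simple zero followed by a gap -/
lemma residue_sign {γ h : ℝ} (hγ : 0 < γ) (hh : 0 < h) (h0 : riemannZeta (1 / 2 + γ * I) = 0)
    (hd : deriv riemannZeta (1 / 2 + γ * I) ≠ 0)
    (hz : ∀ t ∈ Ioc γ (γ + h), riemannZeta (1 / 2 + t * I) ≠ 0) :
    ∃ c : ℝ, 0 ≤ c ∧ completedRiemannZeta (1 / 2 + γ * I + I * h) /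
      deriv completedRiemannZeta (1 / 2 + γ * I) = I * c := by
  have im : ∀ t : ℝ, 0 < t → (1 / 2 + t * I : ℂ).im ≠ 0 := fun t ht => by simpa using ht.ne'
  set z : ℝ → ℂ := fun t => completedRiemannZeta (1 / 2 + t * I) with hzd
  have dz : ∀ t : ℝ, 0 < t → HasDerivAt z (deriv completedRiemannZeta (1 / 2 + t * I) * I) t :=
    fun t ht => by
      have d1 : HasDerivAt (fun w : ℂ => 1 / 2 + w * I) I (t : ℂ) := by
        simpa using ((hasDerivAt_id (t : ℂ)).mul_const I).const_add (1 / 2)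
      exact ((diff_lam (im t ht)).hasDerivAt.comp (t : ℂ) d1).comp_ofReal
  set w := deriv completedRiemannZeta (1 / 2 + γ * I) * I with hw
  have w0 : w ≠ 0 := mul_ne_zero (deriv_lam_ne (im γ hγ) h0 hd) I_ne_zero
  have wim : w.im = 0 := by
    have d1 : HasDerivAt (fun t => (z t).im) w.im γ := imCLM.hasFDerivAt.comp_hasDerivAt γ (dz γ hγ)
    have d2 : HasDerivAt (fun t => (z t).im) 0 γ := by
      refine (hasDerivAt_const γ (0 : ℝ)).congr_of_eventuallyEq ?_
      filter_upwards [lt_mem_nhds hγ] with t ht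
      exact lam_real ht.ne'
    exact d1.unique d2
  have wre : w.re ≠ 0 := fun e => w0 (Complex.ext e wim)
  have d1 : ∀ t : ℝ, 0 < t → HasDerivAt (fun t => w.re * (z t).re)
      (w.re * (deriv completedRiemannZeta (1 / 2 + t * I) * I).re) t := fun t ht =>
    (reCLM.hasFDerivAt.comp_hasDerivAt t (dz t ht)).const_mul w.re
  have key := sign_after (u := fun t => w.re * (z t).re) hh
    (fun t ht => (d1 t (hγ.trans_le ht.1)).continuousAt.continuousWithinAt)
    (by simp only [hzd]; rw [(lam_zero_iff (im γ hγ)).2 h0]; simp) (d1 γ hγ)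
    (mul_self_pos.2 wre) fun t ht e => by
      have t0 : 0 < t := hγ.trans ht.1
      refine hz t ht ((lam_zero_iff (im t t0)).1 (Complex.ext ?_ (lam_real t0.ne')))
      exact (mul_eq_zero.1 e).resolve_left wre
  refine ⟨w.re * (z (γ + h)).re / w.re ^ 2, div_nonneg key (sq_nonneg _), ?_⟩
  have e1 : completedRiemannZeta (1 / 2 + γ * I + I * h) = ((z (γ + h)).re : ℂ) := by
    have : z (γ + h) = ((z (γ + h)).re : ℂ) :=
      Complex.ext (by simp) (by rw [ofReal_im]; exact lam_real (add_pos hγ hh).ne')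
    rw [← this, hzd]
    push_cast
    ring_nf
  have e2 : deriv completedRiemannZeta (1 / 2 + γ * I) = -I * (w.re : ℂ) := by
    have : w = (w.re : ℂ) := Complex.ext (by simp) (by simpa using wim)
    rw [← this, hw]
    linear_combination (deriv completedRiemannZeta (1 / 2 + γ * I)) * I_mul_I
  have wre' : (w.re : ℂ) ≠ 0 := by exact_mod_cast wre
  rw [e1, e2]
  push_cast
  field_simp
  linear_combination (-(((z (γ + h)).re : ℝ) : ℂ)) * I_mul_I

end Pool.Agent.MP_f0209c_nt
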