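import Pool.Agent.MP_f0209c_nt.Zeta

/-! The resonator, its Dirichlet series and the diagonal sum. -/

namespace Pool.Agent.MP_f0209c_nt
open Complex Filter Topology Finset ComplexConjugate

/-- the Moebius function with complex values -/
def mu (n : ℕ) : ℂ := ((ArithmeticFunction.moebius n : ℤ) : ℂ)

lemma norm_mu (n : ℕ) : ‖mu n‖ ≤ 1 := by
  rw [mu, Complex.norm_intCast]
  exact_mod_cast ArithmeticFunction.abs_moebius_le_one

lemma sum_mu (n : ℕ) : ∑ d ∈ n.divisors, mu d = if n = 1 then 1 else 0 := by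
  have := congrArg (fun f : ArithmeticFunction ℂ => f n)
    (ArithmeticFunction.coe_moebius_mul_coe_zeta (R := ℂ))
  simp only [ArithmeticFunction.coe_mul_zeta_apply, ArithmeticFunction.one_apply] at this
  exact this

/-- the resonator -/
noncomputable def RR (X : ℕ) (h : ℝ) (s : ℂ) : ℂ :=
  ∑ n ∈ Icc 1 X, mu n * exp (-(s + I * h) * Real.log n)

/-- the reflected resonator -/
noncomputable def RS (X : ℕ) (h : ℝ) (s : ℂ) : ℂ :=
  ∑ n ∈ Icc 1 X, mu n * exp ((s - 1 + I * h) * Real.log n)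

lemma RR_sym (X : ℕ) (h : ℝ) (s : ℂ) : RR X h (1 - conj s) = conj (RS X h s) := by
  rw [RR, RS, map_sum]
  refine sum_congr rfl fun n _ => ?_
  rw [map_mul, ← exp_conj, mu, map_intCast]
  simp only [map_mul, map_add, map_sub, conj_ofReal, conj_I, map_one]
  ring_nf

lemma RS_sym (X : ℕ) (h : ℝ) (s : ℂ) : RS X h (1 - conj s) = conj (RR X h s) := by
  have := RR_sym X h (1 - conj s)
  simp only [map_sub, map_one, conj_conj, sub_sub_cancel] at this
  rw [this, conj_conj]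

lemma norm_sum_le_pow (X : ℕ) (w : ℂ) (hw : w.re ≤ 3) :
    ‖∑ n ∈ Icc 1 X, mu n * exp (w * Real.log n)‖ ≤ (X : ℝ) ^ 4 := by
  refine (norm_sum_le_of_le _ (n := fun _ => (X : ℝ) ^ 3) fun n hn => ?_).trans ?_
  · obtain ⟨h1, h2⟩ := mem_Icc.1 hn
    have h1' : (1 : ℝ) ≤ n := by exact_mod_cast h1
    have h2' : (n : ℝ) ≤ X := by exact_mod_cast h2
    rw [norm_mul, norm_pw _ (by linarith)]
    have e1 : (n : ℝ) ^ w.re ≤ (n : ℝ) ^ (3 : ℕ) := by
      rw [← Real.rpow_natCast]; exact Real.rpow_le_rpow_of_exponent_le h1' (by simpa using hw)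
    have e2 : (n : ℝ) ^ 3 ≤ (X : ℝ) ^ 3 := pow_le_pow_left₀ (by linarith) h2' 3
    have e3 : 0 ≤ (n : ℝ) ^ w.re := by positivity
    nlinarith [norm_mu n]
  · simp only [sum_const, Nat.card_Icc, add_tsub_cancel_right, nsmul_eq_mul]
    exact le_of_eq (by ring)

/-- twist -/
noncomputable def tw (h : ℝ) (n : ℕ) : ℂ := exp (-(I * h) * Real.log n)

/-- coefficients of the resonator -/
noncomputable def rc (X : ℕ) (h : ℝ) (n : ℕ) : ℂ := if n ≤ X then mu n * tw h n else 0

/-- coefficients of `ζ(s + ih) R(s) / ζ(s)` -/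
noncomputable def bb (X : ℕ) (h : ℝ) : ℕ → ℂ :=
  LSeries.convolution (LSeries.convolution (tw h) (rc X h)) mu

lemma norm_tw (h : ℝ) (n : ℕ) : ‖tw h n‖ = 1 := by
  rw [tw, norm_exp]; simp [-natCast_log]

lemma norm_rc (X : ℕ) (h : ℝ) (n : ℕ) : ‖rc X h n‖ ≤ 1 := by
  unfold rc; split_ifs
  · rw [norm_mul, norm_tw, mul_one]; exact norm_mu n
  · simp

lemma term_eq (f : ℕ → ℂ) (s : ℂ) {n : ℕ} (hn : n ≠ 0) :
    LSeries.term f s n = f n * exp (-s * Real.log n) := by
  rw [LSeries.term_of_ne_zero hn, ← pw_nat _ hn, cpow_neg, div_eq_mul_inv]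

lemma bb_zero (X : ℕ) (h : ℝ) : bb X h 0 = 0 := LSeries.convolution_map_zero _ _

lemma hasSum_bb (X : ℕ) (h : ℝ) {s : ℂ} (hs : 1 < s.re) :
    HasSum (fun m => bb X h m * exp (-s * Real.log m))
      (riemannZeta (s + I * h) * RR X h s / riemannZeta s) := by
  have h1 : LSeriesHasSum (tw h) s (riemannZeta (s + I * h)) := by
    have := LSeriesHasSum_one (s := s + I * h) (by simpa using hs)
    refine (congrArg (fun f => HasSum f _) (funext fun n => ?_)).mpr this
    rcases eq_or_ne n 0 with rfl | hn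
    · simp
    · rw [term_eq _ _ hn, term_eq _ _ hn, tw, ← exp_add, Pi.one_apply, one_mul]; ring_nf
  have h2 : LSeriesHasSum (rc X h) s (RR X h s) := by
    have : RR X h s = ∑ n ∈ Icc 1 X, LSeries.term (rc X h) s n := sum_congr rfl fun n hn => by
      obtain ⟨a, b⟩ := mem_Icc.1 hn
      rw [term_eq _ _ (by omega), rc, if_pos b, tw, mul_assoc, ← exp_add]; ring_nf
    rw [this]
    refine hasSum_sum_of_ne_finset_zero fun n hn => ?_
    rcases eq_or_ne n 0 with rfl | h0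
    · simp
    · rw [term_eq _ _ h0, rc, if_neg (fun h => hn (mem_Icc.2 ⟨by omega, h⟩)), zero_mul]
  have h3 : LSeriesHasSum mu s (riemannZeta s)⁻¹ := by
    have e := LSeries_one_mul_Lseries_moebius hs
    rw [LSeries_one_eq_riemannZeta hs] at e
    rw [← eq_inv_of_mul_eq_one_right e]
    exact (ArithmeticFunction.LSeriesSummable_moebius_iff.2 hs).LSeriesHasSum
  have h4 := (h1.convolution h2).convolution h3
  rw [div_eq_mul_inv]
  refine (congrArg (fun f => HasSum f _) (funext fun n => ?_)).mpr h4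
  rcases eq_or_ne n 0 with rfl | hn
  · simp [bb_zero]
  · rw [term_eq _ _ hn, bb]

lemma norm_conv_le {f g : ℕ → ℂ} {n : ℕ} {M : ℝ} (hM : 0 ≤ M)
    (h : ∀ d ∈ n.divisors, ‖f d * g (n / d)‖ ≤ M) : ‖LSeries.convolution f g n‖ ≤ n * M := by
  rw [LSeries.convolution_def]
  dsimp only
  rw [Nat.sum_divisorsAntidiagonal fun x y => f x * g y]
  refine (norm_sum_le_of_le _ h).trans ?_
  rw [sum_const, nsmul_eq_mul]
  exact mul_le_mul_of_nonneg_right (by exact_mod_cast Nat.card_divisors_le_self n) hM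

lemma norm_bb (X : ℕ) (h : ℝ) (m : ℕ) : ‖bb X h m‖ ≤ (m : ℝ) ^ 2 := by
  rw [sq]
  refine norm_conv_le (by positivity) fun d hd => ?_
  have h1 : ‖LSeries.convolution (tw h) (rc X h) d‖ ≤ d * 1 :=
    norm_conv_le zero_le_one fun e _ => by rw [norm_mul, norm_tw, one_mul]; exact norm_rc _ _ _
  have h2 : (d : ℝ) ≤ m := by exact_mod_cast Nat.divisor_le hd
  rw [norm_mul]
  nlinarith [norm_mu (m / d), norm_nonneg (mu (m / d)),
    norm_nonneg (LSeries.convolution (tw h) (rc X h) d)]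

lemma bb_eq {X : ℕ} (h : ℝ) {m : ℕ} (h1 : 1 ≤ m) (h2 : m ≤ X) : bb X h m = mu m := by
  have c1 : ∀ d, d ≤ X → LSeries.convolution (tw h) (rc X h) d = if d = 1 then 1 else 0 := by
    intro d hd
    rw [LSeries.convolution_def]
    dsimp only
    rw [Nat.sum_divisorsAntidiagonal' fun x y => tw h x * rc X h y]
    have : ∀ e ∈ d.divisors, tw h (d / e) * rc X h e = tw h d * mu e := fun e he => by
      obtain ⟨⟨k, rfl⟩, h0⟩ := Nat.mem_divisors.1 he
      have e0 : e ≠ 0 := left_ne_zero_of_mul h0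
      have k0 : k ≠ 0 := right_ne_zero_of_mul h0
      rw [Nat.mul_div_cancel_left _ (Nat.pos_of_ne_zero e0), rc,
        if_pos ((Nat.divisor_le he).trans hd), tw, tw, tw, Nat.cast_mul,
        Real.log_mul (by exact_mod_cast e0) (by exact_mod_cast k0), ofReal_add, mul_add, exp_add]
      ring
    rw [sum_congr rfl this, ← mul_sum, sum_mu]
    split_ifs with h
    · simp [h, tw]
    · simp
  rw [bb, LSeries.convolution_def]
  dsimp only
  rw [Nat.sum_divisorsAntidiagonal fun x y => LSeries.convolution (tw h) (rc X h) x * mu y,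
    sum_congr rfl fun d hd => by rw [c1 d ((Nat.divisor_le hd).trans h2)],
    sum_eq_single_of_mem 1 (Nat.one_mem_divisors.2 (by omega)) fun d _ hd => by simp [hd]]
  simp

lemma mu_sq {X n : ℕ} (h1 : 1 ≤ n) (h2 : n ≤ X) :
    mu n ^ 2 = ∑ d ∈ Icc 1 X, if d ^ 2 ∣ n then mu d else 0 := by
  obtain ⟨a, b, ha, hb, rfl, hs⟩ := Nat.sq_mul_squarefree_of_pos h1
  have e1 : ∑ d ∈ Icc 1 X, (if d ^ 2 ∣ b ^ 2 * a then mu d else 0) = ∑ d ∈ b.divisors, mu d := by
    rw [← sum_filter]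
    symm
    refine sum_subset (fun d hd => ?_) fun d hd hd' => ?_
    · have h3 := Nat.dvd_of_mem_divisors hd
      refine mem_filter.2 ⟨mem_Icc.2 ⟨Nat.pos_of_mem_divisors hd, ?_⟩,
        (pow_dvd_pow_of_dvd h3 2).mul_right _⟩
      have := Nat.le_of_dvd hb h3
      nlinarith
    · by_contra h0
      have sq : Squarefree d := ArithmeticFunction.moebius_ne_zero_iff_squarefree.1 fun h => by
        simp [mu, h] at h0
      have h3 := (mem_filter.1 hd).2
      rw [pow_two d] at h3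
      exact hd' (Nat.mem_divisors.2 ⟨(sq.dvd_pow_iff_dvd two_ne_zero).1
        (hs.dvd_of_squarefree_of_mul_dvd_mul_left h3), hb.ne'⟩)
  rw [e1, sum_mu, mu, ← Int.cast_pow, ArithmeticFunction.moebius_sq]
  by_cases h : b = 1
  · simp [h, hs]
  · have : ¬ Squarefree (b ^ 2 * a) := fun q => h (Nat.isUnit_iff.1 (q b ⟨a, by ring⟩))
    simp [h, this]

/-- the primitive of `exp (i h y)` -/
noncomputable def EE (h y : ℝ) : ℂ := (exp (I * h * y) - 1) / (I * h)

lemma EE_sub (h y y' : ℝ) :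
    EE h y' - EE h y = exp (I * h * y) * ((exp (I * (h * (y' - y) : ℝ)) - 1) / (I * h)) := by
  have : exp (I * h * y') = exp (I * h * y) * exp (I * (h * (y' - y) : ℝ)) := by
    rw [← exp_add]; push_cast; ring_nf
  rw [EE, EE, this]; ring

lemma norm_eI (h y : ℝ) : ‖exp (I * h * y)‖ = 1 := by rw [norm_exp]; simp

lemma norm_Ih {h : ℝ} (h0 : 0 < h) : ‖I * h‖ = h := by simp [h0.le]

lemma EE_lip {h : ℝ} (h0 : 0 < h) (y y' : ℝ) : ‖EE h y' - EE h y‖ ≤ |y' - y| := by
  rw [EE_sub h, norm_mul, norm_eI, one_mul, norm_div, norm_Ih h0, div_le_iff₀ h0]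
  refine Real.norm_exp_I_mul_ofReal_sub_one_le.trans (le_of_eq ?_)
  rw [Real.norm_eq_abs, abs_mul, abs_of_pos h0, mul_comm]

lemma norm_EE {h : ℝ} (h0 : 0 < h) (y : ℝ) : ‖EE h y‖ ≤ 2 / h := by
  rw [EE, norm_div, norm_Ih h0]
  refine div_le_div_of_nonneg_right ((norm_sub_le _ _).trans ?_) h0.le
  rw [norm_eI, norm_one]; norm_num

lemma pw_eq (h : ℝ) {x : ℝ} (hx : 0 < x) :
    exp ((-1 + I * h) * Real.log x) = exp (I * h * Real.log x) / x := by
  rw [add_mul, exp_add, neg_mul, one_mul, exp_neg, ← ofReal_exp, Real.exp_log hx]; ring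

lemma harm_est {h : ℝ} (h0 : 0 < h) (h1 : h ≤ 1) (N : ℕ) :
    ‖∑ k ∈ Icc 1 N, exp ((-1 + I * h) * Real.log k) - EE h (Real.log (N + 1))‖ ≤ 4 := by
  have key : ∀ N : ℕ, ‖∑ k ∈ Icc 1 N, exp ((-1 + I * h) * Real.log k) - EE h (Real.log (N + 1))‖ ≤
      4 - 4 / (N + 1) := fun N => by
    induction N with
    | zero => simp [EE]
    | succ N ih =>
      set a : ℝ := N + 1 with ha
      have a1 : 1 ≤ a := by rw [ha]; linarith [(N.cast_nonneg : (0 : ℝ) ≤ N)]
      set δ := Real.log (a + 1) - Real.log a with hδ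
      have d0 : δ = Real.log ((a + 1) / a) := by rw [Real.log_div (by linarith) (by linarith)]
      have d1 : δ ≤ 1 / a := by
        rw [d0]
        refine (Real.log_le_sub_one_of_pos (by positivity)).trans (le_of_eq ?_)
        field_simp; ring
      have d2 : 1 / (a + 1) ≤ δ := by
        rw [d0]
        refine le_trans (le_of_eq ?_) (Real.one_sub_inv_le_log_of_pos (by positivity))
        field_simp; ring
      have d3 : 0 ≤ δ := le_trans (by positivity) d2
      have d4 : 1 / a ≤ 1 := by rw [div_le_one (by linarith)]; exact a1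
      have e1 : ‖(exp (I * (h * δ : ℝ)) - 1) / (I * h) - δ‖ ≤ δ ^ 2 := by
        have b1 : ‖I * (h * δ : ℝ)‖ = h * δ := by
          rw [norm_mul, norm_I, one_mul, norm_real, Real.norm_of_nonneg (by positivity)]
        have b2 := norm_exp_sub_one_sub_id_le (x := I * (h * δ : ℝ)) (by rw [b1]; nlinarith)
        have b3 : (h : ℂ) ≠ 0 := by exact_mod_cast h0.ne'
        have b4 : (exp (I * (h * δ : ℝ)) - 1) / (I * h) - δ =
            (exp (I * (h * δ : ℝ)) - 1 - I * (h * δ : ℝ)) / (I * h) := by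
          push_cast; field_simp
        rw [b4, norm_div, norm_Ih h0, div_le_iff₀ h0]
        rw [b1] at b2
        nlinarith [sq_nonneg δ, mul_nonneg h0.le (sq_nonneg δ)]
      have e2 : ‖exp ((-1 + I * h) * Real.log a) - (EE h (Real.log (a + 1)) - EE h (Real.log a))‖ ≤
          4 / a - 4 / (a + 1) := by
        rw [pw_eq h (by linarith), EE_sub h, div_eq_mul_one_div, ← mul_sub, norm_mul, norm_eI,
          one_mul, ← hδ]
        have b1 := norm_sub_le_norm_sub_add_norm_sub (1 / (a : ℂ)) δ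
          ((exp (I * (h * δ : ℝ)) - 1) / (I * h))
        have b2 : ‖1 / (a : ℂ) - δ‖ = 1 / a - δ := by
          rw [← ofReal_one, ← ofReal_div, ← ofReal_sub, norm_real,
            Real.norm_of_nonneg (by linarith)]
        rw [norm_sub_rev (δ : ℂ), b2] at b1
        have b3 : δ ^ 2 ≤ (1 / a) ^ 2 := pow_le_pow_left₀ d3 d1 2
        have b4 : (1 / a) ^ 2 ≤ 2 / a - 2 / (a + 1) := by
          rw [div_pow, div_sub_div _ _ (by linarith) (by linarith),
            div_le_div_iff₀ (by positivity) (by positivity)]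
          nlinarith
        have b5 : 0 ≤ 1 / a - 1 / (a + 1) := by linarith
        have b6 : ∀ c x : ℝ, c / x = c * (1 / x) := fun c x => by ring
        rw [b6 2, b6 2] at b4
        rw [b6 4, b6 4]
        linarith
      rw [sum_Icc_succ_top (by omega), Nat.cast_succ, ← ha]
      refine le_trans (le_of_eq ?_) (((norm_add_le _ _).trans (add_le_add ih e2)).trans
        (le_of_eq (by ring)))
      ring_nf
  have : (0 : ℝ) ≤ 4 / (N + 1) := by positivity
  linarith [key N]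

lemma mu_sum_est {X : ℕ} (hX : 2 ≤ X) :
    |∑ d ∈ Icc 1 X, (ArithmeticFunction.moebius d : ℝ) / d ^ 2 - 3 / 4| ≤ 1 / 2 - 1 / X := by
  induction X, hX using Nat.le_induction with
  | base =>
    rw [sum_Icc_succ_top (by norm_num), Icc_self, sum_singleton,
      ArithmeticFunction.moebius_apply_prime Nat.prime_two]
    norm_num
  | succ X hX ih =>
    have x2 : (2 : ℝ) ≤ X := by exact_mod_cast hX
    have e1 : |(ArithmeticFunction.moebius (X + 1) : ℝ) / ((X + 1 : ℕ) : ℝ) ^ 2| ≤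
        1 / X - 1 / ((X + 1 : ℕ) : ℝ) := by
      have : |(ArithmeticFunction.moebius (X + 1) : ℝ)| ≤ 1 := by
        exact_mod_cast ArithmeticFunction.abs_moebius_le_one
      rw [abs_div, abs_of_pos (by positivity : (0 : ℝ) < ((X + 1 : ℕ) : ℝ) ^ 2)]
      refine (div_le_div_of_nonneg_right this (by positivity)).trans ?_
      push_cast
      rw [div_sub_div _ _ (by linarith) (by linarith),
        div_le_div_iff₀ (by positivity) (by positivity)]
      nlinarith
    rw [sum_Icc_succ_top (by omega), add_sub_right_comm]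
    linarith [abs_add_le (∑ d ∈ Icc 1 X, (ArithmeticFunction.moebius d : ℝ) / d ^ 2 - 3 / 4)
      ((ArithmeticFunction.moebius (X + 1) : ℝ) / ((X + 1 : ℕ) : ℝ) ^ 2)]

/-- the diagonal sum -/
noncomputable def DD (X : ℕ) (h : ℝ) : ℂ :=
  ∑ n ∈ Icc 1 X, mu n ^ 2 * exp ((-1 + I * h) * Real.log n)

lemma DD_eq (X : ℕ) (h : ℝ) : DD X h = ∑ d ∈ Icc 1 X, mu d * (exp (I * (h * (2 * Real.log d) : ℝ)) /
    d ^ 2) * ∑ k ∈ Icc 1 (X / d ^ 2), exp ((-1 + I * h) * Real.log k) := by
  rw [DD, sum_congr rfl fun n hn => by rw [mu_sq (mem_Icc.1 hn).1 (mem_Icc.1 hn).2, sum_mul],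
    sum_comm]
  refine sum_congr rfl fun d hd => ?_
  have d0 : 0 < d := (mem_Icc.1 hd).1
  have d1 : 0 < d ^ 2 := by positivity
  simp only [ite_mul, zero_mul]
  rw [← sum_filter, mul_sum]
  symm
  refine sum_bij (fun k _ => d ^ 2 * k) (fun k hk => ?_) (fun k _ l _ e => ?_) (fun n hn => ?_)
    fun k hk => ?_
  · obtain ⟨a, b⟩ := mem_Icc.1 hk
    refine mem_filter.2 ⟨mem_Icc.2 ⟨Nat.mul_pos d1 a, ?_⟩, dvd_mul_right _ _⟩
    rw [mul_comm]; exact (Nat.le_div_iff_mul_le d1).1 b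
  · exact Nat.eq_of_mul_eq_mul_left d1 e
  · obtain ⟨a, k, rfl⟩ := mem_filter.1 hn
    obtain ⟨a, b⟩ := mem_Icc.1 a
    refine ⟨k, mem_Icc.2 ⟨Nat.pos_of_mul_pos_left a, ?_⟩, rfl⟩
    rw [Nat.le_div_iff_mul_le d1, mul_comm]; exact b
  · have k0 : (0 : ℝ) < k := by exact_mod_cast (mem_Icc.1 hk).1
    have d2 : (0 : ℝ) < d := by exact_mod_cast d0
    have e : Real.log ((d ^ 2 * k : ℕ) : ℝ) = 2 * Real.log d + Real.log k := by
      push_cast
      rw [Real.log_mul (by positivity) k0.ne', Real.log_pow]; norm_num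
    rw [pw_eq h k0, pw_eq h (by push_cast; positivity), e, ofReal_add, mul_add, exp_add]
    push_cast
    ring_nf

lemma summable_log : Summable fun d : ℕ => (5 + 6 * Real.log d) / (d : ℝ) ^ 2 := by
  refine ((Real.summable_nat_rpow.2 (by norm_num : (-(3 / 2) : ℝ) < -1)).mul_left 17).of_nonneg_of_le
    (fun d => by have := Real.log_natCast_nonneg d; positivity) fun d => ?_
  rcases Nat.eq_zero_or_pos d with rfl | hd
  · simp
  have d1 : (1 : ℝ) ≤ d := by exact_mod_cast hd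
  have e1 := Real.log_le_rpow_div (x := d) (ε := 1 / 2) (by linarith) (by norm_num)
  have e2 : 1 ≤ (d : ℝ) ^ (1 / 2 : ℝ) := Real.one_le_rpow d1 (by norm_num)
  have e3 : (d : ℝ) ^ (-(3 / 2) : ℝ) * d ^ 2 = (d : ℝ) ^ (1 / 2 : ℝ) := by
    rw [← Real.rpow_natCast, ← Real.rpow_add (by linarith)]; norm_num
  rw [div_le_iff₀ (by positivity), mul_assoc, e3]
  linarith

lemma DD_est : ∃ C : ℝ, 0 ≤ C ∧ ∀ (X : ℕ) (h : ℝ), 2 ≤ X → 0 < h → h ≤ 1 →
    ∃ c : ℝ, 1 / 4 ≤ c ∧ c ≤ 2 ∧ ‖DD X h - c * EE h (Real.log X)‖ ≤ C := by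
  have nn : ∀ d : ℕ, 0 ≤ (5 + 6 * Real.log d) / (d : ℝ) ^ 2 := fun d => by
    have := Real.log_natCast_nonneg d; positivity
  refine ⟨∑' d : ℕ, (5 + 6 * Real.log d) / (d : ℝ) ^ 2, tsum_nonneg nn, fun X h hX h0 h1 => ?_⟩
  have x2 : (2 : ℝ) ≤ X := by exact_mod_cast hX
  have hc := abs_le.1 (mu_sum_est hX)
  have x3 : (0 : ℝ) ≤ 1 / X := by positivity
  refine ⟨∑ d ∈ Icc 1 X, (ArithmeticFunction.moebius d : ℝ) / d ^ 2, by linarith, by linarith, ?_⟩
  refine le_trans ?_ (summable_log.sum_le_tsum (Icc 1 X) fun d _ => nn d)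
  rw [DD_eq, ofReal_sum, sum_mul, ← sum_sub_distrib]
  refine norm_sum_le_of_le _ fun d hd => ?_
  have d0 : 0 < d := (mem_Icc.1 hd).1
  have d1 : (1 : ℝ) ≤ d := by exact_mod_cast d0
  have l0 := Real.log_natCast_nonneg d
  set S := ∑ k ∈ Icc 1 (X / d ^ 2), exp ((-1 + I * h) * Real.log k) with hS
  set u := exp (I * (h * (2 * Real.log d) : ℝ)) with hu
  have u1 : ‖u‖ = 1 := by rw [hu, norm_exp]; simp [-natCast_log]
  have u2 : ‖u - 1‖ ≤ h * (2 * Real.log d) :=
    Real.norm_exp_I_mul_ofReal_sub_one_le.trans (le_of_eq (Real.norm_of_nonneg (by positivity)))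
  have e1 : |Real.log ((X / d ^ 2 : ℕ) + 1) - Real.log X| ≤ 1 + 2 * Real.log d := by
    have a1 : ((X / d ^ 2 : ℕ) : ℝ) ≤ X := by exact_mod_cast Nat.div_le_self _ _
    have a2 : (X : ℝ) ≤ d ^ 2 * ((X / d ^ 2 : ℕ) + 1) := by
      exact_mod_cast (Nat.lt_mul_div_succ X (by positivity : 0 < d ^ 2)).le
    have a3 := Real.log_le_log (by positivity) (show ((X / d ^ 2 : ℕ) : ℝ) + 1 ≤ 2 * X by linarith)
    have a4 := Real.log_le_log (by positivity) a2
    rw [Real.log_mul (by norm_num) (by positivity)] at a3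
    rw [Real.log_mul (by positivity) (by positivity), Real.log_pow] at a4
    have := Real.log_two_lt_d9
    push_cast at a4
    rw [abs_le]; constructor <;> linarith
  have e2 : ‖S - EE h (Real.log X)‖ ≤ 5 + 2 * Real.log d := by
    have := norm_sub_le_norm_sub_add_norm_sub S (EE h (Real.log ((X / d ^ 2 : ℕ) + 1)))
      (EE h (Real.log X))
    linarith [harm_est h0 h1 (X / d ^ 2), EE_lip h0 (Real.log X) (Real.log ((X / d ^ 2 : ℕ) + 1))]
  have e3 : ‖(u - 1) * EE h (Real.log X)‖ ≤ 4 * Real.log d := by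
    rw [norm_mul]
    refine (mul_le_mul u2 (norm_EE h0 _) (norm_nonneg _) (by positivity)).trans (le_of_eq ?_)
    field_simp; ring
  have e4 : mu d * (u / d ^ 2) * S -
      (((ArithmeticFunction.moebius d : ℝ) / d ^ 2 : ℝ) : ℂ) * EE h (Real.log X) =
      mu d * (u * (S - EE h (Real.log X)) + (u - 1) * EE h (Real.log X)) / d ^ 2 := by
    rw [mu]; push_cast; ring
  rw [e4, norm_div, norm_pow, Complex.norm_natCast, norm_mul]
  refine div_le_div_of_nonneg_right ?_ (by positivity)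
  have e5 := norm_add_le (u * (S - EE h (Real.log X))) ((u - 1) * EE h (Real.log X))
  rw [norm_mul u, u1, one_mul] at e5
  nlinarith [norm_mu d, norm_nonneg (mu d),
    norm_nonneg (u * (S - EE h (Real.log X)) + (u - 1) * EE h (Real.log X))]

end Pool.Agent.MP_f0209c_nt
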