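import Pool.Agent.MP_f0209c_nt.Arith

/-! Separation of the diagonal and off-diagonal terms. -/

namespace Pool.Agent.MP_f0209c_nt
open Complex Filter Topology Finset MeasureTheory intervalIntegral

lemma log_sep {X n m : ℕ} (h1 : 1 ≤ n) (h2 : n ≤ X) (h3 : 1 ≤ m) (h4 : m ≠ n) :
    1 / (2 * (X : ℝ)) ≤ |Real.log n - Real.log m| := by
  have n1 : (1 : ℝ) ≤ n := by exact_mod_cast h1
  have n2 : (n : ℝ) ≤ X := by exact_mod_cast h2
  have m1 : (1 : ℝ) ≤ m := by exact_mod_cast h3
  rcases lt_or_gt_of_ne h4 with h | h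
  · have a : (m : ℝ) + 1 ≤ n := by exact_mod_cast h
    have := Real.one_sub_inv_le_log_of_pos (x := n / m) (by positivity)
    rw [Real.log_div (by linarith) (by linarith), inv_div] at this
    refine le_trans ?_ (this.trans (le_abs_self _))
    rw [one_sub_div (by linarith), div_le_div_iff₀ (by linarith) (by linarith)]
    nlinarith
  · have a : (n : ℝ) + 1 ≤ m := by exact_mod_cast h
    have := Real.one_sub_inv_le_log_of_pos (x := (n + 1) / n) (by positivity)
    rw [Real.log_div (by linarith) (by linarith), inv_div] at this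
    have b := Real.log_le_log (by linarith) a
    rw [abs_sub_comm]
    refine le_trans ?_ (le_trans (by linarith : 1 - (n : ℝ) / (n + 1) ≤ Real.log m - Real.log n)
      (le_abs_self _))
    rw [one_sub_div (by linarith), div_le_div_iff₀ (by linarith) (by linarith)]
    nlinarith

lemma expand {X : ℕ} {h A B ε : ℝ} {Ψ Z : ℝ → ℂ} (hε : 0 ≤ ε) (hΨ : ContinuousOn Ψ (Set.uIcc A B))
    (hZ : ContinuousOn Z (Set.uIcc A B))
    (hsum : ∀ t : ℝ, HasSum (fun m => bb X h m * exp (-(4 + t * I) * Real.log m)) (Z t))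
    (hK : ∀ x : ℝ, 1 / (2 * (X : ℝ)) ≤ |x| →
      ‖∫ t in A..B, exp (x * (4 + t * I)) * Ψ t‖ ≤ Real.exp (4 * x) * ε) :
    ‖(∫ t in A..B, Ψ t * Z t * RS X h (4 + t * I)) - (∫ t in A..B, Ψ t) * DD X h‖ ≤
      2 * X ^ 5 * ε := by
  obtain ⟨M, hM⟩ := isCompact_uIcc.exists_bound_of_continuousOn hΨ
  have ce : ∀ x : ℝ, Continuous fun t : ℝ => exp (x * (4 + t * I)) := fun x => by fun_prop
  have ne : ∀ x t : ℝ, ‖exp (x * (4 + t * I))‖ = Real.exp (4 * x) := fun x t => by
    rw [norm_exp]; simp [mul_comm]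
  have nb : ∀ n m : ℕ, 1 ≤ n → ‖bb X h m‖ * Real.exp (4 * (Real.log n - Real.log m)) ≤
      n ^ 4 * (1 / m ^ 2) := fun n m hn => by
    rcases Nat.eq_zero_or_pos m with rfl | hm
    · simp [bb_zero]
    have n1 : (0 : ℝ) < n := by exact_mod_cast hn
    have m1 : (0 : ℝ) < m := by exact_mod_cast hm
    have e : Real.exp (4 * (Real.log n - Real.log m)) = (n / m) ^ 4 := by
      rw [← Real.log_div n1.ne' m1.ne', ← Nat.cast_ofNat, Real.exp_nat_mul,
        Real.exp_log (by positivity)]
    rw [e]
    refine (mul_le_mul_of_nonneg_right (norm_bb X h m) (by positivity)).trans (le_of_eq ?_)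
    field_simp
  have pi2 : Real.pi ^ 2 / 6 ≤ 2 := by nlinarith [Real.pi_lt_d2, Real.pi_pos]
  have one : ∀ n ∈ Icc 1 X, ‖(∫ t in A..B, exp (Real.log n * (4 + t * I)) * (Ψ t * Z t)) -
      mu n * ∫ t in A..B, Ψ t‖ ≤ 2 * X ^ 4 * ε := fun n hn => by
    obtain ⟨n1, n2⟩ := mem_Icc.1 hn
    have hs := hasSum_integral_of_dominated_convergence (μ := volume) (a := A) (b := B)
      (F := fun (m : ℕ) (t : ℝ) =>
        bb X h m * (exp ((Real.log n - Real.log m : ℝ) * (4 + t * I)) * Ψ t))
      (f := fun t => exp (Real.log n * (4 + t * I)) * (Ψ t * Z t))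
      (fun m _ => n ^ 4 * (1 / m ^ 2) * M)
      (fun m => ((continuousOn_const.mul ((ce _).continuousOn.mul hΨ)).mono
        Set.uIoc_subset_uIcc).aestronglyMeasurable measurableSet_uIoc)
      (fun m => ae_of_all _ fun t ht => by
        rw [norm_mul, norm_mul, ne, ← mul_assoc]
        exact mul_le_mul (nb n m n1) (hM t (Set.uIoc_subset_uIcc ht)) (norm_nonneg _)
          (by positivity))
      (ae_of_all _ fun t _ => ((hasSum_zeta_two.summable.mul_left _).mul_right _))
      intervalIntegrable_const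
      (ae_of_all _ fun t _ => by
        have := (hsum t).mul_left (exp (Real.log n * (4 + t * I)) * Ψ t)
        rw [mul_assoc] at this
        refine (congrArg (fun f => HasSum f _) (funext fun m => ?_)).mpr this
        rw [ofReal_sub, sub_mul, sub_eq_add_neg, exp_add]
        ring_nf)
    have hs2 := hasSum_ite_sub_hasSum hs n
    simp only [intervalIntegral.integral_const_mul, sub_self, ofReal_zero, zero_mul, exp_zero,
      one_mul, bb_eq h n1 n2] at hs2
    have hs3 := hs2.norm_le_of_bounded ((hasSum_zeta_two.mul_left ((n : ℝ) ^ 4)).mul_right ε)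
      fun m => by
        split_ifs with e
        · rw [norm_zero]; positivity
        · rcases Nat.eq_zero_or_pos m with rfl | hm
          · simp [bb_zero]
          rw [norm_mul]
          refine (mul_le_mul_of_nonneg_left (hK _ (log_sep n1 n2 hm e)) (norm_nonneg _)).trans ?_
          rw [← mul_assoc]
          exact mul_le_mul_of_nonneg_right (nb n m n1) hε
    refine hs3.trans (mul_le_mul_of_nonneg_right ?_ hε)
    have : (n : ℝ) ^ 4 ≤ X ^ 4 := pow_le_pow_left₀ (by positivity) (by exact_mod_cast n2) 4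
    rw [mul_comm]
    exact mul_le_mul pi2 this (by positivity) (by norm_num)
  have e1 : (∫ t in A..B, Ψ t * Z t * RS X h (4 + t * I)) = ∑ n ∈ Icc 1 X,
      mu n * exp ((-1 + I * h) * Real.log n) *
        ∫ t in A..B, exp (Real.log n * (4 + t * I)) * (Ψ t * Z t) := by
    simp only [← intervalIntegral.integral_const_mul]
    rw [← intervalIntegral.integral_finsetSum (f := fun (n : ℕ) (t : ℝ) =>
        mu n * exp ((-1 + I * h) * Real.log n) * (exp (Real.log n * (4 + t * I)) * (Ψ t * Z t)))
      fun n _ => (continuousOn_const.mul ((ce _).continuousOn.mul (hΨ.mul hZ))).intervalIntegrable]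
    refine integral_congr fun t _ => ?_
    simp only [RS, mul_sum]
    refine sum_congr rfl fun n _ => ?_
    have : exp ((4 + t * I - 1 + I * h) * Real.log n) = exp ((-1 + I * h) * Real.log n) *
        exp (Real.log n * (4 + t * I)) := by rw [← exp_add]; ring_nf
    rw [this]; ring
  rw [e1, DD, mul_sum, ← sum_sub_distrib]
  refine (norm_sum_le_of_le _ (n := fun _ => 2 * X ^ 4 * ε) fun n hn => ?_).trans ?_
  · have n1 : (1 : ℝ) ≤ n := by exact_mod_cast (mem_Icc.1 hn).1
    have a1 : ‖exp ((-1 + I * h) * Real.log n)‖ ≤ 1 := by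
      rw [norm_pw _ (by linarith)]
      exact Real.rpow_le_one_of_one_le_of_nonpos n1 (by simp)
    have a2 : ‖mu n * exp ((-1 + I * h) * Real.log n)‖ ≤ 1 := by
      rw [norm_mul]; exact mul_le_one₀ (norm_mu n) (norm_nonneg _) a1
    refine le_trans (le_of_eq ?_) ((norm_mul_le_of_le a2 (one n hn)).trans (le_of_eq (one_mul _)))
    congr 1
    ring
  · simp only [sum_const, Nat.card_Icc, add_tsub_cancel_right, nsmul_eq_mul]
    exact le_of_eq (by ring)

end Pool.Agent.MP_f0209c_nt
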