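import Pool.Agent.MP_f0209c_nt.Zeta

/-! The ratio of two nearby values of the Gamma factor. -/

namespace Pool.Agent.MP_f0209c_nt
open Complex Set Metric Filter Topology

lemma log_one_add_le {w : ℂ} (hw : ‖w‖ ≤ 1 / 2) : ‖log (1 + w) - w‖ ≤ ‖w‖ ^ 2 := by
  refine (norm_log_one_add_sub_self_le (by linarith)).trans ?_
  have : (1 - ‖w‖)⁻¹ ≤ 2 := by
    rw [inv_le_comm₀ (by linarith) (by norm_num)]; linarith
  nlinarith [sq_nonneg ‖w‖]

section
variable {z : ℂ} (hy : 2 ≤ z.im) (hx : |z.re| ≤ z.im)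
include hy

lemma norm_add_nat_ge (k : ℕ) : 2 ≤ ‖z + k‖ :=
  le_trans (by simpa using hy.trans (le_abs_self _)) (abs_im_le_norm _)

lemma add_nat_ne (k : ℕ) : z + k ≠ 0 := fun h => by
  have := norm_add_nat_ge hy k
  rw [h, norm_zero] at this; linarith

lemma norm_inv_le (k : ℕ) : ‖(z + k)⁻¹‖ ≤ 1 / 2 := by
  rw [norm_inv, inv_le_comm₀ (by linarith [norm_add_nat_ge hy k]) (by norm_num)]
  simpa using norm_add_nat_ge hy k

include hx

lemma sum_q (N : ℕ) : ∑ k ∈ Finset.range N, ‖(z + k)⁻¹‖ ^ 2 ≤ 10 / z.im := by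
  have h1 : ∀ N : ℕ, ∑ k ∈ Finset.range N, ‖(z + k)⁻¹‖ ^ 2 ≤
      5 / (z.im - 1) - 5 / (N + z.im - 1) := fun N => by
    induction N with
    | zero => simp
    | succ N ih =>
      rw [Finset.sum_range_succ]
      have n0 : (0 : ℝ) ≤ N := N.cast_nonneg
      have e1 : (N + z.im) ^ 2 ≤ 5 * ‖z + N‖ ^ 2 := by
        rw [Complex.sq_norm, normSq_apply]
        simp only [add_re, natCast_re, add_im, natCast_im, add_zero]
        have a1 := abs_le.1 hx
        have a2 : N + z.im ≤ |z.re + N| + 2 * z.im := by linarith [le_abs_self (z.re + N)]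
        have a3 := pow_le_pow_left₀ (by linarith) a2 2
        nlinarith [sq_abs (z.re + N), sq_nonneg (2 * |z.re + N| - z.im)]
      have e2 : ‖(z + N)⁻¹‖ ^ 2 ≤ 5 / (N + z.im - 1) - 5 / (N + 1 + z.im - 1) := by
        have p := norm_add_nat_ge hy N
        rw [norm_inv, inv_pow, div_sub_div _ _ (by linarith) (by linarith), inv_eq_one_div,
          div_le_div_iff₀ (by positivity) (mul_pos (by linarith) (by linarith))]
        nlinarith
      push_cast
      linarith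
  have n0 : (0 : ℝ) ≤ N := N.cast_nonneg
  have h2 : 0 ≤ 5 / (N + z.im - 1) := div_nonneg (by norm_num) (by linarith)
  have h3 : 5 / (z.im - 1) ≤ 10 / z.im := by
    rw [div_le_div_iff₀ (by linarith) (by linarith)]; linarith
  linarith [h1 N]

lemma sum_inv (N : ℕ) : ‖((Real.log ‖z + N‖ - Real.log ‖z‖ : ℝ) : ℂ) -
    ∑ k ∈ Finset.range N, (z + k)⁻¹‖ ≤ 15 := by
  have h1 : ∀ N : ℕ, ‖((Real.log ‖z + N‖ - Real.log ‖z‖ : ℝ) : ℂ) -
      ∑ k ∈ Finset.range N, (z + k)⁻¹‖ ≤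
      (1 + z.im) * ∑ k ∈ Finset.range N, ‖(z + k)⁻¹‖ ^ 2 := fun N => by
    induction N with
    | zero => simp
    | succ N ih =>
      set w := (z + N)⁻¹ with hw
      have ne := add_nat_ne hy N
      have e1 : z + (N + 1 : ℕ) = (z + N) * (1 + w) := by rw [hw]; push_cast; field_simp; ring
      have ne2 : 1 + w ≠ 0 := fun h => add_nat_ne hy (N + 1) (by rw [e1, h, mul_zero])
      have e2 : Real.log ‖z + (N + 1 : ℕ)‖ = Real.log ‖z + N‖ + (log (1 + w)).re := by
        rw [e1, norm_mul, Real.log_mul (norm_ne_zero_iff.2 ne) (norm_ne_zero_iff.2 ne2), log_re]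
      have e3 : ‖(((log (1 + w)).re : ℝ) : ℂ) - w‖ ≤ (1 + z.im) * ‖w‖ ^ 2 := by
        refine (norm_le_abs_re_add_abs_im _).trans ?_
        have a1 := (abs_re_le_norm _).trans (log_one_add_le (norm_inv_le hy N))
        have a2 : |w.im| = z.im * ‖w‖ ^ 2 := by
          rw [hw, inv_im, norm_inv, inv_pow, Complex.sq_norm, abs_div, abs_neg,
            abs_of_nonneg (normSq_nonneg _), abs_of_nonneg (by simp; linarith)]
          simp [div_eq_mul_inv]
        simp only [sub_re, ofReal_re, sub_im, ofReal_im, zero_sub, abs_neg] at a1 ⊢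
        linarith
      rw [Finset.sum_range_succ, Finset.sum_range_succ, e2, mul_add, ← hw]
      refine le_trans (le_of_eq ?_) ((norm_add_le _ _).trans (add_le_add ih e3))
      push_cast
      ring_nf
  refine (h1 N).trans ((mul_le_mul_of_nonneg_left (sum_q hy hx N) (by linarith)).trans ?_)
  rw [← mul_div_assoc, div_le_iff₀ (by linarith)]; linarith

lemma gamma_ratio₀ {η l : ℝ} (h0 : 0 ≤ η) (h1 : 24 * η ≤ 1) (hl : |l - Real.log ‖z‖| ≤ 3) :
    ‖Gamma (z + I * η) / Gamma z * exp (-(I * η * l)) - 1‖ ≤ 48 * η := by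
  have g0 : Gamma z ≠ 0 := Gamma_ne_zero fun m h => by
    rw [h] at hy; simp at hy; linarith
  have t := ((((GammaSeq_tendsto_Gamma (z + I * η)).div (GammaSeq_tendsto_Gamma z) g0).mul_const
    (exp (-(I * η * l)))).sub_const 1).norm
  refine le_of_tendsto t ?_
  filter_upwards [tendsto_natCast_atTop_atTop.eventually_ge_atTop (2 * (‖z‖ + 1))] with n hn
  have nz := norm_nonneg z
  have n0 : (0 : ℝ) < n := by linarith
  have n1 : n ≠ 0 := by exact_mod_cast n0.ne'
  have wk : ∀ k : ℕ, ‖I * η * (z + k)⁻¹‖ = η * ‖(z + k)⁻¹‖ := fun k => by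
    rw [norm_mul, norm_mul, norm_I, one_mul, norm_real, Real.norm_of_nonneg h0]
  have wk2 : ∀ k : ℕ, ‖I * η * (z + k)⁻¹‖ ≤ 1 / 2 := fun k => by
    rw [wk]; nlinarith [norm_inv_le hy k, norm_nonneg (z + k)⁻¹]
  have ne1 : ∀ k : ℕ, 1 + I * η * (z + k)⁻¹ ≠ 0 := fun k h => by
    have := wk2 k
    rw [← neg_eq_iff_add_eq_zero] at h
    rw [← h] at this; norm_num at this
  set E : ℂ := I * η * Real.log n - ∑ k ∈ Finset.range (n + 1), log (1 + I * η * (z + k)⁻¹) -
    I * η * l with hE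
  have e1 : (GammaSeq (z + I * η) / GammaSeq z) n * exp (-(I * η * l)) = exp E := by
    have p1 : ∏ k ∈ Finset.range (n + 1), (z + I * η + k) = (∏ k ∈ Finset.range (n + 1), (z + k)) *
        exp (∑ k ∈ Finset.range (n + 1), log (1 + I * η * (z + k)⁻¹)) := by
      rw [exp_sum, ← Finset.prod_mul_distrib]
      refine Finset.prod_congr rfl fun k _ => ?_
      have := add_nat_ne hy k
      rw [exp_log (ne1 k)]; field_simp; ring
    have p2 : ∏ k ∈ Finset.range (n + 1), (z + k) ≠ 0 :=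
      Finset.prod_ne_zero_iff.2 fun k _ => add_nat_ne hy k
    have p3 : ((n.factorial : ℕ) : ℂ) ≠ 0 := by exact_mod_cast n.factorial_ne_zero
    rw [Pi.div_apply, GammaSeq, GammaSeq, p1, pw_nat _ n1, pw_nat _ n1, hE, exp_sub, exp_sub,
      add_mul, exp_add, exp_neg]
    field_simp
  have e2 : |Real.log n - Real.log ‖z + (n + 1 : ℕ)‖| ≤ 1 := by
    have a1 : ‖z + (n + 1 : ℕ)‖ ≤ 2 * n := by
      refine (norm_add_le _ _).trans ?_
      rw [Complex.norm_natCast]; push_cast; linarith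
    have a2 : n ≤ 2 * ‖z + (n + 1 : ℕ)‖ := by
      have := norm_sub_le (z + (n + 1 : ℕ)) z
      rw [add_sub_cancel_left, Complex.norm_natCast] at this
      push_cast at this ⊢; linarith
    have a3 : 0 < ‖z + (n + 1 : ℕ)‖ := by linarith
    have a4 := Real.log_le_log a3 a1
    have a5 := Real.log_le_log n0 a2
    rw [Real.log_mul (by norm_num) n0.ne'] at a4
    rw [Real.log_mul (by norm_num) a3.ne'] at a5
    have := Real.log_two_lt_d9
    rw [abs_le]; constructor <;> linarith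
  have e3 : ‖∑ k ∈ Finset.range (n + 1),
      (log (1 + I * η * (z + k)⁻¹) - I * η * (z + k)⁻¹)‖ ≤ η * 5 := by
    refine (norm_sum_le_of_le _ fun k _ => log_one_add_le (wk2 k)).trans ?_
    simp only [wk, mul_pow]
    rw [← Finset.mul_sum]
    have a1 := sum_q hy hx (n + 1)
    have a2 : 10 / z.im ≤ 5 := by rw [div_le_iff₀ (by linarith)]; linarith
    have a3 : η ^ 2 ≤ η := by nlinarith
    exact mul_le_mul a3 (a1.trans a2) (Finset.sum_nonneg fun _ _ => sq_nonneg _) h0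
  have e4 : E = I * η * (((Real.log n - Real.log ‖z + (n + 1 : ℕ)‖ : ℝ) : ℂ) +
      (((Real.log ‖z + (n + 1 : ℕ)‖ - Real.log ‖z‖ : ℝ) : ℂ) -
        ∑ k ∈ Finset.range (n + 1), (z + k)⁻¹) - ((l - Real.log ‖z‖ : ℝ) : ℂ)) -
      ∑ k ∈ Finset.range (n + 1), (log (1 + I * η * (z + k)⁻¹) - I * η * (z + k)⁻¹) := by
    rw [hE, Finset.sum_sub_distrib, ← Finset.mul_sum]; push_cast; ring
  have e5 : ‖E‖ ≤ 24 * η := by
    rw [e4]
    refine (norm_sub_le _ _).trans ?_
    rw [norm_mul, norm_mul, norm_I, one_mul, norm_real, Real.norm_of_nonneg h0]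
    have a1 := (norm_sub_le _ _).trans (add_le_add ((norm_add_le _ _).trans
      (add_le_add ((norm_real _).le.trans e2) (sum_inv hy hx (n + 1)))) ((norm_real _).le.trans hl))
    nlinarith
  rw [e1]
  exact (norm_exp_sub_one_le (e5.trans h1)).trans (by linarith)

end

/-- the ratio of the Gamma factors -/
noncomputable def GG (h : ℝ) (s : ℂ) : ℂ := Gammaℝ (s + I * h) / Gammaℝ s

lemma gamma_ratio {T h : ℝ} {s : ℂ} (hT : 4 ≤ T) (h0 : 0 ≤ h) (h1 : 24 * h ≤ 1) (s1 : T ≤ s.im)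
    (s2 : s.im ≤ 2 * T) (s3 : |s.re| ≤ T) :
    ‖GG h s * exp (-(I * h * Real.log T / 2)) - 1‖ ≤ 24 * h := by
  have pi0 := Real.pi_pos
  have n1 : T / 2 ≤ ‖s / 2‖ := by
    have := (le_abs_self _).trans (abs_im_le_norm s)
    rw [norm_div, Complex.norm_ofNat]; linarith
  have n2 : ‖s / 2‖ ≤ 3 / 2 * T := by
    have := norm_le_abs_re_add_abs_im s
    rw [abs_of_nonneg (by linarith : 0 ≤ s.im)] at this
    rw [norm_div, Complex.norm_ofNat]; linarith
  have key := gamma_ratio₀ (z := s / 2) (η := h / 2) (l := Real.log T + Real.log Real.pi)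
    (by simp; linarith) (by simp [abs_div]; linarith) (by linarith) (by linarith) (by
      rw [← Real.log_mul (by linarith) pi0.ne', ← Real.log_div (by positivity) (by linarith)]
      have a1 : 1 ≤ T * Real.pi / ‖s / 2‖ := by
        rw [le_div_iff₀ (by linarith)]; nlinarith [Real.pi_gt_three]
      have a2 : T * Real.pi / ‖s / 2‖ ≤ Real.exp 3 := by
        have := Real.quadratic_le_exp_of_nonneg (x := 3) (by norm_num)
        rw [div_le_iff₀ (by linarith)]; nlinarith [Real.pi_le_four]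
      rw [abs_of_nonneg (Real.log_nonneg a1), Real.log_le_iff_le_exp (by linarith)]
      exact a2)
  refine le_trans (le_of_eq ?_) (key.trans (le_of_eq (by ring)))
  have pi1 : (Real.pi : ℂ) ≠ 0 := by exact_mod_cast pi0.ne'
  have e1 : (s + I * h) / 2 = s / 2 + I * (h / 2 : ℝ) := by push_cast; ring
  have e2 : (Real.pi : ℂ) ^ (-(s + I * h) / 2) = (Real.pi : ℂ) ^ (-s / 2) *
      exp (-(I * (h / 2 : ℝ) * Real.log Real.pi)) := by
    rw [cpow_def_of_ne_zero pi1, cpow_def_of_ne_zero pi1, ← exp_add, ← ofReal_log pi0.le]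
    push_cast; ring_nf
  have e3 : exp (-(I * (h / 2 : ℝ) * (Real.log T + Real.log Real.pi : ℝ))) =
      exp (-(I * (h / 2 : ℝ) * Real.log Real.pi)) * exp (-(I * h * Real.log T / 2)) := by
    rw [← exp_add]; push_cast; ring_nf
  have e4 : (Real.pi : ℂ) ^ (-s / 2) ≠ 0 := by simp [pi0.ne']
  rw [GG, Gammaℝ_def, Gammaℝ_def, e1, e2, e3]
  congr 2
  field_simp

lemma norm_GG_le {T h : ℝ} {s : ℂ} (hT : 4 ≤ T) (h0 : 0 ≤ h) (h1 : 24 * h ≤ 1) (s1 : T ≤ s.im)
    (s2 : s.im ≤ 2 * T) (s3 : |s.re| ≤ T) : ‖GG h s‖ ≤ 2 := by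
  have := gamma_ratio hT h0 h1 s1 s2 s3
  have e : ‖GG h s * exp (-(I * h * Real.log T / 2))‖ = ‖GG h s‖ := by
    rw [norm_mul, norm_exp]; simp
  have := norm_le_norm_sub_add (GG h s * exp (-(I * h * Real.log T / 2))) 1
  rw [norm_one] at this
  linarith

lemma diff_GG {h : ℝ} (h0 : 0 ≤ h) {s : ℂ} (hs : 0 < s.im) : DifferentiableAt ℂ (GG h) s := by
  have d1 : DifferentiableAt ℂ (fun z => Gammaℝ (z + I * h)) s :=
    DifferentiableAt.comp (g := Gammaℝ) s (diff_Gammaℝ (by simp; linarith)) (by fun_prop)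
  exact d1.div (diff_Gammaℝ hs.ne') (Gammaℝ_ne hs.ne')

end Pool.Agent.MP_f0209c_nt
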