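import Pool.Agent.MP_f0209c_nt.Cplx
import Pool.Agent.MP_f0209c_nt.Gam
import Pool.Agent.MP_f0209c_nt.Expand

/-! The contour integral under the hypothesis that there are no close zeros. -/

namespace Pool.Agent.MP_f0209c_nt
open Complex Set Metric Filter Topology ComplexConjugate MeasureTheory intervalIntegral

/-- Gaussian weight -/
noncomputable def WW (T H : ℝ) (s : ℂ) : ℂ := exp ((s - (1 / 2 + (3 * T / 2 : ℝ) * I)) ^ 2 / H ^ 2)

lemma norm_WW (T H : ℝ) (s : ℂ) :
    ‖WW T H s‖ = Real.exp (((s.re - 1 / 2) ^ 2 - (s.im - 3 * T / 2) ^ 2) / H ^ 2) := by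
  rw [WW, norm_exp, ← ofReal_pow, div_ofReal_re]
  simp [sq]

lemma WW_sym (T H : ℝ) (s : ℂ) : WW T H (1 - conj s) = conj (WW T H s) := by
  rw [WW, WW, ← exp_conj]
  simp only [map_div₀, map_pow, map_sub, map_add, map_mul, conj_ofReal, conj_I, map_one, map_ofNat]
  ring_nf

lemma WW_line (T H t : ℝ) :
    WW T H (1 / 2 + t * I) = (Real.exp (-(t - 3 * T / 2) ^ 2 / H ^ 2) : ℝ) := by
  rw [WW, ofReal_exp]
  congr 1
  push_cast
  linear_combination ((t - 3 * T / 2) ^ 2 / H ^ 2 : ℂ) * I_mul_I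

/-- the numerator -/
noncomputable def NN (X : ℕ) (h T H : ℝ) (s : ℂ) : ℂ :=
  completedRiemannZeta (s + I * h) * (RR X h s * RS X h s * WW T H s)

/-- the integrand -/
noncomputable def FF (X : ℕ) (h T H : ℝ) (s : ℂ) : ℂ := NN X h T H s / completedRiemannZeta s

lemma FF_sym (X : ℕ) {h : ℝ} (h0 : 0 ≤ h) (T H : ℝ) {s : ℂ} (hs : 0 < s.im) :
    FF X h T H (1 - conj s) = conj (FF X h T H s) := by
  have e : 1 - conj s + I * h = 1 - conj (s + I * h) := by simp; ring
  rw [FF, FF, NN, NN, e, lam_sym (by simp; linarith), lam_sym hs.ne', RR_sym, RS_sym, WW_sym]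
  simp only [map_div₀, map_mul]
  ring

lemma FF_eq (X : ℕ) {h : ℝ} (h0 : 0 ≤ h) (T H : ℝ) {s : ℂ} (hs : 0 < s.im) :
    FF X h T H s = GG h s * WW T H s *
      (riemannZeta (s + I * h) * RR X h s / riemannZeta s) * RS X h s := by
  rw [FF, NN, lam_eq (by simp; linarith), lam_eq hs.ne', GG]
  ring

lemma diff_NN (X : ℕ) {h : ℝ} (h0 : 0 ≤ h) (T H : ℝ) {s : ℂ} (hs : 0 < s.im) :
    DifferentiableAt ℂ (NN X h T H) s := by
  have d1 : DifferentiableAt ℂ (fun z => completedRiemannZeta (z + I * h)) s :=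
    DifferentiableAt.comp (g := completedRiemannZeta) s (diff_lam (by simp; linarith))
      (by fun_prop)
  refine d1.mul ?_
  unfold RR RS WW
  fun_prop

/-- all zeros at height between `T` and `2T` are simple and their heights differ by more than `h` -/
def Gap (T h : ℝ) : Prop := ∀ ρ : ℂ, riemannZeta ρ = 0 → T ≤ ρ.im → ρ.im ≤ 2 * T →
  deriv riemannZeta ρ ≠ 0 ∧ ∀ ρ' : ℂ, riemannZeta ρ' = 0 → T ≤ ρ'.im → ρ'.im ≤ 2 * T → ρ' ≠ ρ →
    h < |ρ'.im - ρ.im|

lemma Gap.line {T h : ℝ} (hG : Gap T h) (hT : 0 < T) (h0 : 0 ≤ h) {ρ : ℂ} (hz : riemannZeta ρ = 0)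
    (h1 : T ≤ ρ.im) (h2 : ρ.im ≤ 2 * T) : ρ = 1 / 2 + ρ.im * I := by
  have e : 1 - conj ρ = ρ := by
    by_contra ne
    have := (hG ρ hz h1 h2).2 _ (zeta_zero_sym (by linarith) hz) (by simpa using h1)
      (by simpa using h2) ne
    simp at this
    linarith
  have := congrArg re e
  refine Complex.ext ?_ (by simp)
  simp at this ⊢
  linarith

lemma good_height {T h : ℝ} (hG : Gap T h) (h0 : 0 < h) (t : ℝ) : ∃ A, |A - t| ≤ h ∧
    ∀ ρ : ℂ, riemannZeta ρ = 0 → T ≤ ρ.im → ρ.im ≤ 2 * T → h / 2 ≤ |ρ.im - A| := by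
  by_cases hc : ∀ ρ : ℂ, riemannZeta ρ = 0 → T ≤ ρ.im → ρ.im ≤ 2 * T → h / 2 ≤ |ρ.im - t|
  · exact ⟨t, by simp [h0.le], hc⟩
  push Not at hc
  obtain ⟨r, r0, r1, r2, r3⟩ := hc
  have := abs_lt.1 r3
  refine ⟨r.im + h / 2, abs_le.2 ⟨by linarith, by linarith⟩, fun ρ z a b => ?_⟩
  rcases eq_or_ne ρ r with rfl | ne
  · rw [le_abs]; right; linarith
  · have := (hG r r0 r1 r2).2 ρ z a b ne
    rw [lt_abs] at this
    rw [le_abs]
    rcases this with h | h
    · left; linarith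
    · right; linarith

lemma contour {X : ℕ} {T h H A B M : ℝ} (hG : Gap T h) (hT : 0 < T) (h0 : 0 < h) (hA : T ≤ A)
    (hAB : A ≤ B) (hB : B + h ≤ 2 * T)
    (hA' : ∀ ρ : ℂ, riemannZeta ρ = 0 → T ≤ ρ.im → ρ.im ≤ 2 * T → h / 2 ≤ |ρ.im - A|)
    (hB' : ∀ ρ : ℂ, riemannZeta ρ = 0 → T ≤ ρ.im → ρ.im ≤ 2 * T → h / 2 ≤ |ρ.im - B|)
    (hM : ∀ x ∈ Icc (1 / 2 : ℝ) 4, ‖FF X h T H (x + A * I)‖ ≤ M ∧ ‖FF X h T H (x + B * I)‖ ≤ M) :
    -(7 * M) ≤ (∫ t in A..B, FF X h T H (4 + t * I)).im := by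
  have fin := ((isCompact_uIcc (a := (-3 : ℝ)) (b := 4)).reProdIm
    (isCompact_uIcc (a := A) (b := B))).inter_riemannZetaZeros_finite
  have win : ∀ s : ℂ, s.im ∈ uIcc A B → T ≤ s.im ∧ s.im + h ≤ 2 * T := fun s hs => by
    rw [uIcc_of_le hAB] at hs; exact ⟨by linarith [hs.1], by linarith [hs.2]⟩
  have key := res_sign (a' := -3) (a := 4) (U := {s : ℂ | 0 < s.im})
    (isOpen_lt continuous_const continuous_im) (fun s hs => hT.trans_le (win s hs.2).1)
    (by norm_num) hAB (N := NN X h T H) (F := completedRiemannZeta)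
    (fun s hs => (diff_NN X h0.le T H hs).differentiableWithinAt)
    (fun s hs => (diff_lam (ne_of_gt hs)).differentiableWithinAt) fin.toFinset
    (fun ρ hρ => by
      obtain ⟨r1, r2⟩ := fin.mem_toFinset.1 hρ
      obtain ⟨w1, w2⟩ := win ρ r1.2
      have e := congrArg re (hG.line hT h0.le r2 w1 (by linarith))
      have a := hA' ρ r2 w1 (by linarith)
      have b := hB' ρ r2 w1 (by linarith)
      have r3 := r1.2
      rw [uIcc_of_le hAB, mem_preimage] at r3
      rw [abs_of_nonneg (by linarith [r3.1])] at a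
      rw [abs_of_nonpos (by linarith [r3.2])] at b
      simp at e
      exact ⟨by linarith, by linarith, by linarith, by linarith⟩)
    (fun ρ hρ => by
      obtain ⟨r1, r2⟩ := fin.mem_toFinset.1 hρ
      obtain ⟨w1, w2⟩ := win ρ r1.2
      have r2' : riemannZeta ρ = 0 := r2
      have e := hG.line hT h0.le r2 w1 (by linarith)
      obtain ⟨g1, g2⟩ := hG ρ r2 w1 (by linarith)
      have i0 : ρ.im ≠ 0 := by linarith
      refine ⟨(lam_zero_iff i0).2 r2, deriv_lam_ne i0 r2 g1, ?_⟩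
      generalize ρ.im = γ at *
      subst e
      obtain ⟨c, c0, ec⟩ := residue_sign (by linarith) h0 r2' g1 fun t ht z => by
        have := g2 _ z (by simp; linarith [ht.1]) (by simp; linarith [ht.2]) fun e => by
          have := congrArg im e
          simp at this
          linarith [ht.1]
        simp only [add_im, mul_im, ofReal_re, I_im, mul_one, ofReal_im, I_re, mul_zero, add_zero,
          div_ofNat_im, one_im, zero_div, zero_add] at this
        rw [abs_of_pos (by linarith [ht.1])] at this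
        linarith [ht.2]
      have e1 := RS_sym X h (1 / 2 + γ * I)
      rw [show 1 - conj (1 / 2 + γ * I : ℂ) = 1 / 2 + γ * I by simp [map_ofNat]; ring] at e1
      refine ⟨c * (normSq (RR X h (1 / 2 + γ * I)) * Real.exp (-(γ - 3 * T / 2) ^ 2 / H ^ 2)),
        mul_nonneg c0 (mul_nonneg (normSq_nonneg _) (Real.exp_pos _).le), ?_⟩
      rw [NN, mul_div_right_comm, ec, e1, mul_conj, WW_line, ofReal_mul, ofReal_mul]
      ring)
    (fun s hs z => fin.mem_toFinset.2
      ⟨hs, (lam_zero_iff (hT.trans_le (win s hs.2).1).ne').1 z⟩)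
  have hor : ∀ y : ℝ, 0 < y → (∀ x ∈ Icc (1 / 2 : ℝ) 4, ‖FF X h T H (x + y * I)‖ ≤ M) →
      ‖∫ x in (-3 : ℝ)..4, FF X h T H (x + y * I)‖ ≤ 7 * M := fun y y0 hy => by
    refine (intervalIntegral.norm_integral_le_of_norm_le_const (C := M) fun x hx => ?_).trans
      (le_of_eq (by norm_num [mul_comm]))
    rw [uIoc_of_le (by norm_num)] at hx
    rcases le_total (1 / 2) x with c | c
    · exact hy x ⟨c, hx.2⟩
    · have := FF_sym X h0.le T H (s := (1 - x : ℝ) + y * I) (by simpa using y0)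
      rw [show 1 - conj (((1 - x : ℝ) : ℂ) + y * I) = x + y * I by simp; ring] at this
      rw [this, norm_conj]
      exact hy _ ⟨by linarith, by linarith [hx.1]⟩
  have e1 := hor A (by linarith) fun x hx => (hM x hx).1
  have e2 := hor B (by linarith) fun x hx => (hM x hx).2
  have e3 : (∫ t in A..B, FF X h T H ((-3 : ℝ) + t * I)) =
      conj (∫ t in A..B, FF X h T H (4 + t * I)) := by
    rw [← intervalIntegral_conj]
    refine integral_congr fun t ht => ?_
    have := FF_sym X h0.le T H (s := 4 + t * I)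
      (hT.trans_le (win _ (by simpa using ht)).1)
    rw [← this]
    congr 1
    simp [map_ofNat]; ring
  change (bdry (-3) 4 A B (FF X h T H)).re ≤ 0 at key
  unfold bdry at key
  rw [e3] at key
  simp only [ofReal_ofNat, sub_re, add_re, mul_re, I_re, I_im, zero_mul, one_mul, conj_im] at key
  have a1 := abs_le.1 ((abs_re_le_norm _).trans e1)
  have a2 := abs_le.1 ((abs_re_le_norm _).trans e2)
  linarith [a1.1, a2.2]

lemma card_zeros {S : Finset ℂ} {h A : ℝ} (h0 : 0 < h) (hS : ∀ ρ ∈ S, |ρ.im - A| ≤ 4)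
    (hsep : ∀ ρ ∈ S, ∀ ρ' ∈ S, ρ' ≠ ρ → h < |ρ'.im - ρ.im|) : (S.card : ℝ) ≤ 8 / h + 1 := by
  have h1 : S.card ≤ (Finset.range (⌊8 / h⌋₊ + 1)).card := by
    refine Finset.card_le_card_of_injOn (fun ρ => ⌊(ρ.im - A + 4) / h⌋₊) (fun ρ hρ => ?_)
      fun ρ hρ ρ' hρ' e => ?_
    · have := abs_le.1 (hS ρ hρ)
      exact Finset.mem_coe.2 (Finset.mem_range.2 (Nat.lt_succ_of_le (Nat.floor_le_floor
        (div_le_div_of_nonneg_right (by linarith) h0.le))))
    · by_contra ne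
      have a := abs_le.1 (hS ρ hρ)
      have b := abs_le.1 (hS ρ' hρ')
      have a1 := Nat.floor_le (div_nonneg (by linarith : 0 ≤ ρ.im - A + 4) h0.le)
      have b1 := Nat.floor_le (div_nonneg (by linarith : 0 ≤ ρ'.im - A + 4) h0.le)
      have a2 := Nat.lt_floor_add_one ((ρ.im - A + 4) / h)
      have b2 := Nat.lt_floor_add_one ((ρ'.im - A + 4) / h)
      dsimp only at e
      rw [← e] at b1 b2
      rw [le_div_iff₀ h0] at a1 b1
      rw [div_lt_iff₀ h0] at a2 b2
      have := hsep ρ hρ ρ' hρ' (Ne.symm ne)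
      rw [lt_abs] at this
      rcases this with c | c <;> linarith
  rw [Finset.card_range] at h1
  have h2 : (S.card : ℝ) ≤ ⌊8 / h⌋₊ + 1 := by exact_mod_cast h1
  linarith [Nat.floor_le (show 0 ≤ 8 / h by positivity)]

lemma zeta_upper' : ∀ᶠ T : ℝ in atTop, ∀ s : ℂ, 1 / 10 < s.re → s.re ≤ 8 → T ≤ s.im →
    s.im ≤ 2 * T → ‖riemannZeta s‖ ≤ Real.exp (2 * Real.log T) := by
  obtain ⟨C, C1, hC⟩ := zeta_upper
  filter_upwards [eventually_ge_atTop 8, eventually_ge_atTop (3 * C)] with T T1 T2 s s1 s2 s3 s4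
  have e : Real.exp (2 * Real.log T) = T * T := by
    rw [two_mul, Real.exp_add, Real.exp_log (by linarith)]
  have n := norm_le_abs_re_add_abs_im s
  rw [abs_of_nonneg (by linarith), abs_of_nonneg (by linarith)] at n
  rw [e]
  refine (hC s s1 (by linarith)).trans ?_
  nlinarith [norm_nonneg s]

lemma zeta_horiz : ∀ᶠ T : ℝ in atTop, ∀ h A x : ℝ, Gap T h → 3 / Real.log T ≤ h → T + 4 ≤ A →
    A + 4 ≤ 2 * T →
    (∀ ρ : ℂ, riemannZeta ρ = 0 → T ≤ ρ.im → ρ.im ≤ 2 * T → h / 2 ≤ |ρ.im - A|) →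
    x ∈ Icc (1 / 2 : ℝ) 4 → Real.exp (-(1500 * Real.log T ^ 2)) ≤ ‖riemannZeta (x + A * I)‖ := by
  obtain ⟨m, m0, hm⟩ := zeta_lower
  filter_upwards [zeta_upper', eventually_ge_atTop 1, eventually_ge_atTop (1 / m),
    Real.tendsto_log_atTop.eventually_ge_atTop 1] with T hU T1 T2 L1 h A x hG h1 A1 A2 hA hx
  set L := Real.log T with hL
  have h0 : 0 < h := lt_of_lt_of_le (by positivity) h1
  have eT : Real.exp L = T := Real.exp_log (by linarith)
  set c : ℂ := 4 + A * I with hc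
  have fin := (isCompact_closedBall c 4).inter_riemannZetaZeros_finite
  have box : ∀ z ∈ ball c (39 / 10), |z.re - 4| < 39 / 10 ∧ |z.im - A| < 39 / 10 := fun z hz => by
    have := mem_ball_iff_norm.1 hz
    have a := abs_re_le_norm (z - c)
    have b := abs_im_le_norm (z - c)
    simp [hc] at a b
    exact ⟨by simp [hc] at this; linarith, by simp [hc] at this; linarith⟩
  classical
  set S := fin.toFinset.filter fun z => z ∈ ball c (36 / 10) with hS
  have mem : ∀ z ∈ S, z ∈ ball c (36 / 10) ∧ riemannZeta z = 0 ∧ |z.im - A| ≤ 4 ∧ T ≤ z.im ∧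
      z.im ≤ 2 * T := fun z hz => by
    obtain ⟨a, b⟩ := Finset.mem_filter.1 hz
    have := abs_lt.1 (box z (ball_subset_ball (by norm_num) b)).2
    exact ⟨b, (fin.mem_toFinset.1 a).2, abs_le.2 ⟨by linarith, by linarith⟩, by linarith,
      by linarith⟩
  have card := card_zeros h0 (fun ρ hρ => (mem ρ hρ).2.2.1) fun ρ hρ ρ' hρ' ne =>
    (hG ρ (mem ρ hρ).2.1 (mem ρ hρ).2.2.2.1 (mem ρ hρ).2.2.2.2).2 ρ' (mem ρ' hρ').2.1
      (mem ρ' hρ').2.2.2.1 (mem ρ' hρ').2.2.2.2 ne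
  have key := lower_bound (f := riemannZeta) (c := c) (fun z hz => by
      have := abs_lt.1 (box z hz).2
      exact (diff_zeta (by linarith)).differentiableWithinAt) S
    (fun ρ hρ => ⟨(mem ρ hρ).1, (mem ρ hρ).2.1,
      (hG ρ (mem ρ hρ).2.1 (mem ρ hρ).2.2.2.1 (mem ρ hρ).2.2.2.2).1⟩)
    (fun z hz z0 => Finset.mem_filter.2 ⟨fin.mem_toFinset.2
      ⟨ball_subset_closedBall (ball_subset_ball (by norm_num) hz), z0⟩, hz⟩)
    (A := 2 * L) (B := L) (by linarith) (fun z hz => by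
      have a := abs_lt.1 (box z hz).1
      have b := abs_lt.1 (box z hz).2
      exact hU z (by linarith) (by linarith) (by linarith) (by linarith))
    (by
      refine le_trans ?_ (hm c (by simp [hc]))
      rw [Real.exp_neg, two_mul, Real.exp_add, eT, inv_le_comm₀ (by positivity) m0, ← one_div]
      nlinarith)
    (s := x + A * I) (by
      rw [show (x + A * I - c : ℂ) = ((x - 4 : ℝ) : ℂ) by rw [hc]; push_cast; ring, norm_real,
        Real.norm_eq_abs, abs_le]
      constructor <;> linarith [hx.1, hx.2])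
    (fun ρ hρ => by
      have a := hA ρ (mem ρ hρ).2.1 (mem ρ hρ).2.2.2.1 (mem ρ hρ).2.2.2.2
      have b := abs_im_le_norm (x + A * I - ρ)
      rw [abs_sub_comm] at a
      simp only [sub_im, add_im, ofReal_im, mul_im, ofReal_re, I_im, mul_one, I_re, mul_zero,
        add_zero, zero_add] at b
      refine le_trans ?_ (a.trans b)
      have := Real.add_one_le_exp L
      rw [div_le_iff₀ (by linarith)] at h1
      rw [Real.exp_neg, inv_le_comm₀ (Real.exp_pos _) (by linarith), inv_div,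
        div_le_iff₀ h0]
      nlinarith)
  refine le_trans (Real.exp_le_exp.2 ?_) key
  have c1 : 8 / h ≤ 3 * L := by
    rw [div_le_iff₀ (by linarith)] at h1
    rw [div_le_iff₀ h0]; nlinarith
  have c2 : (S.card : ℝ) * (L + 282) ≤ 4 * L * (L + 282) :=
    mul_le_mul_of_nonneg_right (by linarith) (by linarith)
  nlinarith

end Pool.Agent.MP_f0209c_nt
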