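import Pool.Agent.MP_f0209c_nt.Main

/-! Passage to consecutive zeros. -/

namespace Pool.Agent.MP_f0209c_nt
open Complex Set Filter Topology

lemma order_pos {s : ℂ} (hs : 0 < s.im) (h : riemannZeta s = 0) :
    1 ≤ analyticOrderAt riemannZeta s := by
  have a : AnalyticAt ℂ riemannZeta s :=
    analyticOn_riemannZeta s fun e => by rw [mem_singleton_iff.1 e] at hs; simp at hs
  exact Order.one_le_iff_ne_zero.2 (a.analyticOrderAt_ne_zero.2 h)

lemma order_two {s : ℂ} (hs : 0 < s.im) (h : riemannZeta s = 0) (hd : deriv riemannZeta s = 0) :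
    2 ≤ analyticOrderAt riemannZeta s := by
  have a : AnalyticAt ℂ riemannZeta s :=
    analyticOn_riemannZeta s fun e => by rw [mem_singleton_iff.1 e] at hs; simp at hs
  have e := a.analyticOrderAt_deriv_add_one
  simp only [h, sub_zero] at e
  have b : 1 ≤ analyticOrderAt (deriv riemannZeta) s :=
    Order.one_le_iff_ne_zero.2 (a.deriv.analyticOrderAt_ne_zero.2 hd)
  calc (2 : ℕ∞) = 1 + 1 := rfl
    _ ≤ analyticOrderAt (deriv riemannZeta) s + 1 := add_le_add_left b 1
    _ = _ := e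

lemma xlog {T h x y : ℝ} (T1 : 1 ≤ T) (h1 : T ≤ x) (h2 : x ≤ y) (h3 : y ≤ 2 * T) (h4 : y - x ≤ h) :
    y * Real.log y - x * Real.log x ≤ h * (Real.log T + 2) := by
  have a1 := Real.log_le_sub_one_of_pos (x := y / x) (div_pos (by linarith) (by linarith))
  rw [Real.log_div (by linarith) (by linarith)] at a1
  have a2 : x * (Real.log y - Real.log x) ≤ y - x := by
    refine (mul_le_mul_of_nonneg_left a1 (by linarith)).trans (le_of_eq ?_)
    have : x ≠ 0 := by linarith
    field_simp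
  have a3 := Real.log_le_log (by linarith) h3
  rw [Real.log_mul (by norm_num) (by linarith)] at a3
  have a4 := Real.log_two_lt_d9
  have a5 := Real.log_nonneg T1
  have a6 : (y - x) * Real.log y ≤ (y - x) * (Real.log T + 1) :=
    mul_le_mul_of_nonneg_left (by linarith) (by linarith)
  nlinarith

theorem small_gap (ρ : ℕ → ℂ) (hmono : Monotone fun j => (ρ j).im)
    (hmult : ∀ s : ℂ, 0 < s.im → {j | ρ j = s}.encard = analyticOrderAt riemannZeta s) :
    ∀ᶠ T : ℝ in atTop, ∃ j : ℕ, T ≤ (ρ j).im ∧ (ρ (j + 1)).im ≤ 2 * T ∧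
      (ρ (j + 1)).im * Real.log (ρ (j + 1)).im / (2 * Real.pi) -
          (ρ j).im * Real.log (ρ j).im / (2 * Real.pi) ≤
        1 / 2 + 6 * Real.log (Real.log T) / Real.log T := by
  have lt := Real.tendsto_log_atTop
  filter_upwards [not_gap, eventually_ge_atTop 1, lt.eventually_ge_atTop 20,
    (lt.comp lt).eventually_ge_atTop 2] with T hG T1 L1 l1
  set L := Real.log T with hL
  set l := Real.log L with hl
  have l2 : 2 ≤ l := l1
  set h := Real.pi / L * (1 + 10 * l / L) with hh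
  have p0 := Real.pi_pos
  have L0 : 0 < L := by linarith
  have h0 : 0 < h := by rw [hh]; positivity
  have pair : ∃ i j : ℕ, i ≠ j ∧ T ≤ (ρ i).im ∧ (ρ i).im ≤ 2 * T ∧ T ≤ (ρ j).im ∧
      (ρ j).im ≤ 2 * T ∧ |(ρ j).im - (ρ i).im| ≤ h := by
    unfold Gap at hG
    push Not at hG
    obtain ⟨r, r0, r1, r2, hr⟩ := hG
    by_cases hd : deriv riemannZeta r = 0
    · have := order_two (by linarith) r0 hd
      rw [← hmult r (by linarith)] at this
      obtain ⟨i, j, hi, hj, ne⟩ := one_lt_encard_iff.1 (lt_of_lt_of_le (by norm_num) this)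
      have hi' : ρ i = r := hi
      have hj' : ρ j = r := hj
      exact ⟨i, j, ne, hi' ▸ r1, hi' ▸ r2, hj' ▸ r1, hj' ▸ r2, by rw [hi', hj']; simp [h0.le]⟩
    · obtain ⟨r', s0, s1, s2, ne, hs⟩ := hr hd
      have a := order_pos (by linarith) r0
      have b := order_pos (by linarith) s0
      rw [← hmult _ (by linarith), one_le_encard_iff_nonempty] at a b
      obtain ⟨i, hi⟩ := a
      obtain ⟨j, hj⟩ := b
      have hi' : ρ i = r := hi
      have hj' : ρ j = r' := hj
      exact ⟨i, j, fun e => ne (by rw [← hi', ← hj', e]), hi' ▸ r1, hi' ▸ r2, hj' ▸ s1, hj' ▸ s2,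
        by rw [hi', hj']; exact hs⟩
  have pair2 : ∃ i j : ℕ, i < j ∧ T ≤ (ρ i).im ∧ (ρ j).im ≤ 2 * T ∧ (ρ j).im - (ρ i).im ≤ h := by
    obtain ⟨i, j, ne, a, b, c, d, e⟩ := pair
    rw [abs_le] at e
    rcases lt_or_gt_of_ne ne with o | o
    · exact ⟨i, j, o, a, d, e.2⟩
    · exact ⟨j, i, o, c, b, by linarith [e.1]⟩
  obtain ⟨i, j, o, a, b, c⟩ := pair2
  have m1 : (ρ (i + 1)).im ≤ (ρ j).im := hmono o
  have m2 : (ρ i).im ≤ (ρ (i + 1)).im := hmono (Nat.le_succ i)
  refine ⟨i, a, m1.trans b, ?_⟩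
  have key := xlog (h := h) T1 a m2 (m1.trans b) (by linarith)
  rw [← sub_div, div_le_iff₀ (by positivity)]
  refine key.trans ?_
  have e1 : h * (L + 2) = Real.pi * ((1 + 10 * (l / L)) * (1 + 2 * (1 / L))) := by
    rw [hh]; field_simp
  have e2 : (1 / 2 + 6 * l / L) * (2 * Real.pi) = Real.pi * (1 + 12 * (l / L)) := by ring
  rw [← hL, e1, e2]
  refine mul_le_mul_of_nonneg_left ?_ p0.le
  have u1 : 2 * (1 / L) ≤ l / L := by
    rw [mul_one_div]; exact div_le_div_of_nonneg_right l2 L0.le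
  have u2 : 1 / L ≤ 1 / 20 := one_div_le_one_div_of_le (by norm_num) L1
  have u3 : 0 ≤ l / L := by positivity
  nlinarith

end Pool.Agent.MP_f0209c_nt
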