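import Pool.Agent.MP_f0209c_nt.Contour

/-! Choice of the parameters and the contradiction. -/

namespace Pool.Agent.MP_f0209c_nt
open Complex Set Metric Filter Topology ComplexConjugate MeasureTheory intervalIntegral

lemma im_main {h : ℝ} (h0 : 0 < h) (L y : ℝ) : (exp (I * h * L / 2) * EE h y).im =
    2 / h * (Real.sin (h * L / 2 + h * y / 2) * Real.sin (h * y / 2)) := by
  have h1 : (h : ℂ) ≠ 0 := by exact_mod_cast h0.ne'
  have e : exp (I * h * L / 2) * EE h y = (-I * (exp ((h * L / 2 + h * y : ℝ) * I) -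
      exp ((h * L / 2 : ℝ) * I))) / h := by
    have a1 : exp ((h * L / 2 + h * y : ℝ) * I) = exp (I * h * L / 2) * exp (I * h * y) := by
      rw [← exp_add]; push_cast; ring_nf
    have a2 : exp ((h * L / 2 : ℝ) * I) = exp (I * h * L / 2) := by push_cast; ring_nf
    rw [a1, a2, EE]
    field_simp
    linear_combination (exp (I * h * y) - 1) * I_mul_I
  rw [e, div_ofReal_im, mul_im, sub_re, exp_ofReal_mul_I_re, exp_ofReal_mul_I_re,
    Real.cos_sub_cos]
  simp only [neg_re, I_re, neg_zero, zero_mul, neg_im, I_im, zero_add]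
  ring_nf

lemma phase {L l y : ℝ} (hl : 1 ≤ l) (hL : 20 * l ≤ L) (y1 : L - 5 * l - 1 ≤ y) (y2 : y ≤ L)
    {h : ℝ} (hh : h = Real.pi / L * (1 + 10 * l / L)) : (exp (I * h * L / 2) * EE h y).im ≤ -l := by
  have p0 := Real.pi_gt_three
  have p1 := Real.pi_le_four
  have L0 : 0 < L := by linarith
  set u := l / L with hu
  have u0 : 0 < u := by positivity
  have u1 : u ≤ 1 / 20 := by rw [hu, div_le_iff₀ L0]; linarith
  have u2 : l = u * L := by rw [hu]; field_simp
  have h0 : 0 < h := by rw [hh]; positivity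
  have e1 : h * L = Real.pi * (1 + 10 * u) := by rw [hh, hu]; field_simp
  set d := h * (L - y) with hd
  have d0 : 0 ≤ d := mul_nonneg h0.le (by linarith)
  have pu : 0 < Real.pi * u := by positivity
  have d1 : d ≤ 9 * (Real.pi * u) := by
    have a : d ≤ h * (6 * l) := mul_le_mul_of_nonneg_left (by linarith) h0.le
    have b : h * (6 * l) = 6 * u * (h * L) := by rw [u2]; ring
    rw [b, e1] at a
    nlinarith
  have e2 : h * L / 2 + h * y / 2 = (10 * (Real.pi * u) - d / 2) + Real.pi := by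
    rw [hd]; linarith
  have e3 : h * y / 2 = (5 * (Real.pi * u) - d / 2) + Real.pi / 2 := by
    rw [hd]; linarith
  have pu2 : Real.pi * u ≤ Real.pi / 20 := by nlinarith
  have s1 : 10 * u ≤ Real.sin (10 * (Real.pi * u) - d / 2) := by
    refine le_trans ?_ (Real.mul_le_sin (by linarith) (by linarith))
    rw [div_mul_eq_mul_div, le_div_iff₀ (by linarith)]
    nlinarith
  have s2 : 1 / 2 ≤ Real.cos (5 * (Real.pi * u) - d / 2) := by
    refine le_trans ?_ Real.one_sub_sq_div_two_le_cos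
    have : (5 * (Real.pi * u) - d / 2) ^ 2 ≤ 1 := by
      rw [sq_le_one_iff_abs_le_one, abs_le]; constructor <;> linarith
    linarith
  rw [im_main h0, e2, e3, Real.sin_add_pi, Real.sin_add_pi_div_two, neg_mul, mul_neg, neg_le_neg_iff,
    div_mul_eq_mul_div, le_div_iff₀ h0]
  have s3 := mul_le_mul s1 s2 (by norm_num) (by linarith)
  have : l * h = u * (Real.pi * (1 + 10 * u)) := by rw [← e1, u2]; ring
  rw [this]
  have : Real.pi * (1 + 10 * u) ≤ 6 := by nlinarith
  nlinarith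

section
variable {T L h A B : ℝ} (hL : L = Real.log T) (L1 : 200 ≤ L) (T1 : 10 * L ^ 5 ≤ T)
  (h1 : 3 / L ≤ h) (h2 : 24 * h ≤ 1) (A1 : T + 4 ≤ A) (A2 : A ≤ 3 * T / 2 - T / 4)
  (B1 : 3 * T / 2 + T / 4 ≤ B) (B2 : B + 4 ≤ 2 * T)

lemma big (L1 : 200 ≤ L) (T1 : 10 * L ^ 5 ≤ T) : 4 * L ^ 2 ≤ T ∧ 64 ≤ T := by
  have a : L ^ 2 ≤ L ^ 5 := pow_le_pow_right₀ (by linarith) (by norm_num)
  constructor <;> nlinarith

lemma div_H (L1 : 200 ≤ L) (T1 : 10 * L ^ 5 ≤ T) {x c : ℝ} (hx : x ≤ c * T ^ 2) :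
    x / (T / L ^ 2) ^ 2 ≤ c * L ^ 4 := by
  have := (big L1 T1).2
  have L0 : 0 < L := by linarith
  rw [div_le_iff₀ (by positivity)]
  refine hx.trans (le_of_eq ?_)
  field_simp

include L1 T1 h1 h2 A1 A2 B1 B2

lemma osc {X : ℕ} (X1 : 0 < X) (X2 : (X : ℝ) ≤ T / L ^ 5) (x : ℝ) (hx : 1 / (2 * (X : ℝ)) ≤ |x|) :
    ‖∫ t in A..B, exp (x * (4 + t * I)) * (GG h (4 + t * I) * WW T (T / L ^ 2) (4 + t * I))‖ ≤
      Real.exp (4 * x) * (4 * T * Real.exp (-(L ^ 4 / 64))) := by
  have T2 := (big L1 T1).2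
  have L0 : 0 < L := by linarith
  have h0 : 0 < h := lt_of_lt_of_le (by positivity) h1
  have X3 : (0 : ℝ) < X := by exact_mod_cast X1
  set a : ℝ := if 0 ≤ x then 4 - T / 16 else 4 + T / 16 with ha
  have a1 : x * a = 4 * x - T / 16 * |x| := by
    rw [ha]; split_ifs with c
    · rw [abs_of_nonneg c]; ring
    · rw [abs_of_neg (not_le.1 c)]; ring
  have a2 : |4 - a| = T / 16 := by
    rw [ha]; split_ifs
    · rw [abs_of_nonneg (by linarith)]; ring
    · rw [abs_of_nonpos (by linarith)]; ring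
  have a3 : ∀ σ ∈ uIcc a 4, |σ - 4| ≤ T / 16 ∧ x * σ ≤ 4 * x := fun σ hσ => by
    rw [ha] at hσ
    split_ifs at hσ with c
    · rw [uIcc_of_le (by linarith)] at hσ
      exact ⟨abs_le.2 ⟨by linarith [hσ.1], by linarith [hσ.2]⟩, by nlinarith [hσ.2]⟩
    · rw [uIcc_of_ge (by linarith)] at hσ
      exact ⟨abs_le.2 ⟨by linarith [hσ.1], by linarith [hσ.2]⟩, by nlinarith [hσ.1]⟩
  have hAB : A ≤ B := by linarith
  have nf : ∀ σ ∈ uIcc a 4, ∀ t ∈ Icc A B, ∀ E : ℝ,
      x * σ + ((T / 8) ^ 2 - (t - 3 * T / 2) ^ 2) / (T / L ^ 2) ^ 2 ≤ E →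
      ‖exp (x * (σ + t * I)) * (GG h (σ + t * I) * WW T (T / L ^ 2) (σ + t * I))‖ ≤
        2 * Real.exp E := fun σ hσ t ht E hE => by
    have b := abs_le.1 (a3 σ hσ).1
    have g := norm_GG_le (T := T) (s := σ + t * I) (by linarith) h0.le h2 (by simp; linarith [ht.1])
      (by simp; linarith [ht.2]) (by simp; rw [abs_le]; constructor <;> linarith)
    have w : ((σ - 1 / 2) ^ 2 - (t - 3 * T / 2) ^ 2) / (T / L ^ 2) ^ 2 ≤
        ((T / 8) ^ 2 - (t - 3 * T / 2) ^ 2) / (T / L ^ 2) ^ 2 :=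
      div_le_div_of_nonneg_right (by nlinarith) (by positivity)
    rw [norm_mul, norm_mul, norm_exp, norm_WW]
    simp only [mul_re, ofReal_re, add_re, I_re, mul_zero, ofReal_im, I_im, mul_one, sub_self,
      add_zero, add_im, mul_im, zero_add, zero_mul, sub_zero]
    calc _ ≤ Real.exp (x * σ) * (2 * Real.exp _) := mul_le_mul_of_nonneg_left
          (mul_le_mul_of_nonneg_right g (Real.exp_pos _).le) (Real.exp_pos _).le
      _ = 2 * Real.exp _ := by rw [mul_left_comm, ← Real.exp_add]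
      _ ≤ _ := mul_le_mul_of_nonneg_left (Real.exp_le_exp.2 (by linarith)) (by norm_num)
  have hor : ∀ t ∈ Icc A B, (T / 4) ^ 2 ≤ (t - 3 * T / 2) ^ 2 → ∀ σ ∈ uIcc a 4,
      ‖exp (x * (σ + t * I)) * (GG h (σ + t * I) * WW T (T / L ^ 2) (σ + t * I))‖ ≤
        2 * Real.exp (4 * x - L ^ 4 / 64) := fun t ht c σ hσ => nf σ hσ t ht _ (by
    have := div_H L1 T1 (x := (T / 8) ^ 2 - (t - 3 * T / 2) ^ 2) (c := -(1 / 64)) (by nlinarith)
    linarith [(a3 σ hσ).2])
  have key := rect_bound (f := fun s => exp (x * s) * (GG h s * WW T (T / L ^ 2) s)) (a := 4)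
    (a' := a) hAB (fun s hs => by
      have : A ≤ s.im := by have := hs.2; rw [uIcc_of_le hAB] at this; exact this.1
      refine (DifferentiableAt.mul (by fun_prop) ((diff_GG h0.le (by linarith)).mul ?_)
        ).differentiableWithinAt
      unfold WW; fun_prop)
    (M₁ := 2 * Real.exp (4 * x - L ^ 4 / 64)) (M₂ := 2 * Real.exp (4 * x - L ^ 4 / 64))
    (fun t ht => nf a left_mem_uIcc t ht _ (by
      have b1 := div_H L1 T1 (x := (T / 8) ^ 2 - (t - 3 * T / 2) ^ 2) (c := 1 / 64)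
        (by nlinarith [sq_nonneg (t - 3 * T / 2)])
      have b2 : L ^ 5 / 32 ≤ T / 16 * |x| := by
        refine le_trans ?_ (mul_le_mul_of_nonneg_left hx (by linarith))
        rw [le_div_iff₀ (by positivity)] at X2
        rw [mul_one_div, le_div_iff₀ (by positivity)]
        linarith
      have b3 : L ^ 4 ≤ L ^ 5 := pow_le_pow_right₀ (by linarith) (by norm_num)
      linarith))
    (hor A (left_mem_Icc.2 hAB) (by nlinarith)) (hor B (right_mem_Icc.2 hAB) (by nlinarith))
  simp only [ofReal_ofNat] at key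
  refine key.trans ?_
  rw [a2, sub_eq_add_neg (4 * x), Real.exp_add]
  have : 0 < Real.exp (4 * x) * Real.exp (-(L ^ 4 / 64)) := by positivity
  nlinarith

include hL

lemma diag : ∃ K : ℝ, 1 / 3 ≤ K ∧
    ‖(∫ t in A..B, GG h (4 + t * I) * WW T (T / L ^ 2) (4 + t * I)) - exp (I * h * L / 2) * K‖ ≤
      28 * h * K := by
  obtain ⟨T3, T2⟩ := big L1 T1
  have L0 : 0 < L := by linarith
  have h0 : 0 < h := lt_of_lt_of_le (by positivity) h1
  have hAB : A ≤ B := by linarith
  set H := T / L ^ 2 with hH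
  have H1 : 4 ≤ H := by rw [hH, le_div_iff₀ (by positivity)]; exact T3
  set g : ℝ → ℝ := fun t => Real.exp (-(t - 3 * T / 2) ^ 2 / H ^ 2) with hg
  have gc : Continuous g := by rw [hg]; fun_prop
  refine ⟨∫ t in A..B, g t, ?_, ?_⟩
  · have a1 := integral_mono_interval (f := g) (μ := volume) (a := 3 * T / 2) (b := 3 * T / 2 + 1)
      (c := A) (d := B) (by linarith) (by linarith) (by linarith)
      (ae_of_all _ fun t => (Real.exp_pos _).le) (gc.intervalIntegrable _ _)
    have a2 := integral_mono_on (f := fun _ => (1 / 3 : ℝ)) (g := g) (μ := volume)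
      (a := 3 * T / 2) (b := 3 * T / 2 + 1) (by linarith) intervalIntegrable_const
      (gc.intervalIntegrable _ _) fun t ht => by
        have b1 : (t - 3 * T / 2) ^ 2 ≤ 1 := by nlinarith [ht.1, ht.2]
        have b2 : -(1 / 2) ≤ -(t - 3 * T / 2) ^ 2 / H ^ 2 := by
          rw [le_div_iff₀ (by positivity)]; nlinarith
        have := Real.add_one_le_exp (-(t - 3 * T / 2) ^ 2 / H ^ 2)
        simp only [hg]
        linarith
    simp only [intervalIntegral.integral_const, add_sub_cancel_left, smul_eq_mul, one_mul] at a2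
    linarith
  have cont : ContinuousOn (fun t : ℝ => GG h (4 + t * I) * WW T H (4 + t * I)) (uIcc A B) :=
    fun t ht => by
      rw [uIcc_of_le hAB] at ht
      refine (ContinuousAt.mul (ContinuousAt.comp (f := fun t : ℝ => (4 : ℂ) + t * I)
        (diff_GG h0.le (by simp; linarith [ht.1])).continuousAt (by fun_prop)) ?_
        ).continuousWithinAt
      unfold WW; fun_prop
  rw [← intervalIntegral.integral_ofReal, ← intervalIntegral.integral_const_mul,
    ← integral_sub (g := fun t => exp (I * h * L / 2) * (g t : ℂ)) cont.intervalIntegrable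
      ((continuous_const.mul (continuous_ofReal.comp gc)).intervalIntegrable _ _),
    ← intervalIntegral.integral_const_mul]
  refine intervalIntegral.norm_integral_le_of_norm_le hAB (ae_of_all _ fun t ht => ?_)
    ((continuous_const.mul gc).intervalIntegrable _ _)
  have g1 := gamma_ratio (T := T) (s := 4 + t * I) (by linarith) h0.le h2 (by simp; linarith [ht.1])
    (by simp; linarith [ht.2]) (by simp; linarith)
  rw [← hL] at g1
  set w : ℂ := (49 / 4 + 7 * (t - 3 * T / 2 : ℝ) * I) / H ^ 2 with hw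
  have w1 : ‖w‖ ≤ h := by
    have b1 : ‖(49 / 4 + 7 * (t - 3 * T / 2 : ℝ) * I : ℂ)‖ ≤ 4 * T := by
      refine (norm_le_abs_re_add_abs_im _).trans ?_
      have : |t - 3 * T / 2| ≤ T / 2 := abs_le.2 ⟨by linarith [ht.1], by linarith [ht.2]⟩
      simp [abs_mul]
      norm_num
      linarith
    rw [hw, norm_div, norm_pow, norm_real, Real.norm_of_nonneg (by linarith)]
    refine (div_H L1 T1 (c := 4 / T) (b1.trans (le_of_eq (by field_simp)))).trans (le_trans ?_ h1)
    rw [div_mul_eq_mul_div, div_le_div_iff₀ (by linarith) L0]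
    nlinarith [pow_pos L0 5]
  have w2 := (norm_exp_sub_one_le (w1.trans (by linarith))).trans
    (mul_le_mul_of_nonneg_left w1 (by norm_num))
  have e1 : WW T H (4 + t * I) = g t * exp w := by
    rw [WW, hg, hw]
    simp only [ofReal_exp]
    rw [← exp_add]
    congr 1
    push_cast
    linear_combination ((t - 3 * T / 2) ^ 2 / H ^ 2 : ℂ) * I_mul_I
  set α := GG h (4 + t * I) * exp (-(I * h * L / 2)) with hα
  have e2 : GG h (4 + t * I) = exp (I * h * L / 2) * α := by
    rw [hα, mul_left_comm, ← exp_add]; simp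
  have e3 : ‖exp (I * h * L / 2)‖ = 1 := by rw [norm_exp]; simp
  have e4 : ‖α‖ ≤ 2 := by
    have := norm_le_norm_sub_add α 1
    rw [norm_one] at this; linarith
  have e5 : ‖α * (exp w - 1) + (α - 1)‖ ≤ 28 * h := by
    have := (norm_add_le _ _).trans (add_le_add (norm_mul_le_of_le e4 w2) g1)
    linarith
  rw [e1, e2, show exp (I * h * L / 2) * α * (g t * exp w) - exp (I * h * L / 2) * g t =
    exp (I * h * L / 2) * ((α * (exp w - 1) + (α - 1)) * g t) by ring, norm_mul, e3, one_mul,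
    norm_mul, norm_real, Real.norm_of_nonneg (Real.exp_pos _).le]
  exact mul_le_mul_of_nonneg_right e5 (Real.exp_pos _).le

omit A1 A2 B1 B2 in
lemma horiz {X : ℕ} (X2 : (X : ℝ) ≤ T) {x y : ℝ} (hx : x ∈ Icc (1 / 2 : ℝ) 4) (y1 : T ≤ y)
    (y2 : y + 4 ≤ 2 * T) (y3 : (T / 4) ^ 2 ≤ (y - 3 * T / 2) ^ 2)
    (hU : ∀ s : ℂ, 1 / 10 < s.re → s.re ≤ 8 → T ≤ s.im → s.im ≤ 2 * T →
      ‖riemannZeta s‖ ≤ Real.exp (2 * L))
    (hz : Real.exp (-(1500 * L ^ 2)) ≤ ‖riemannZeta (x + y * I)‖) :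
    ‖FF X h T (T / L ^ 2) (x + y * I)‖ ≤ 1 := by
  obtain ⟨T3, T2⟩ := big L1 T1
  have L0 : 0 < L := by linarith
  have h0 : 0 < h := lt_of_lt_of_le (by positivity) h1
  have eT : Real.exp L = T := by rw [hL]; exact Real.exp_log (by linarith)
  have x4 : (X : ℝ) ^ 4 ≤ Real.exp (4 * L) := by
    rw [← Nat.cast_ofNat (R := ℝ) (n := 4), Real.exp_nat_mul, eT]
    exact pow_le_pow_left₀ (by positivity) X2 4
  have g := norm_GG_le (T := T) (s := x + y * I) (by linarith) h0.le h2 (by simpa using y1)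
    (by simp; linarith) (by simp; rw [abs_le]; constructor <;> linarith [hx.1, hx.2])
  have g2 : (2 : ℝ) ≤ Real.exp 1 := by linarith [Real.add_one_le_exp 1]
  have w : ‖WW T (T / L ^ 2) (x + y * I)‖ ≤ Real.exp (-(L ^ 4 / 20)) := by
    rw [norm_WW, Real.exp_le_exp]
    refine (div_H L1 T1 (c := -(1 / 20)) ?_).trans (le_of_eq (by ring))
    simp only [add_re, ofReal_re, mul_re, I_re, mul_zero, ofReal_im, I_im, mul_one, sub_self,
      add_zero, add_im, mul_im, zero_add]
    nlinarith [hx.1, hx.2]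
  have z := hU (x + y * I + I * h) (by simp; linarith [hx.1]) (by simp; linarith [hx.2])
    (by simp; linarith) (by simp; linarith)
  have r1 : ‖RR X h (x + y * I)‖ ≤ Real.exp (4 * L) :=
    (norm_sum_le_pow X _ (by simp; linarith [hx.1])).trans x4
  have r2 : ‖RS X h (x + y * I)‖ ≤ Real.exp (4 * L) :=
    (norm_sum_le_pow X _ (by simp; linarith [hx.2])).trans x4
  rw [FF_eq X h0.le _ _ (by simp; linarith)]
  have q : ‖riemannZeta (x + y * I + I * h) * RR X h (x + y * I) / riemannZeta (x + y * I)‖ ≤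
      Real.exp (2 * L) * Real.exp (4 * L) / Real.exp (-(1500 * L ^ 2)) := by
    rw [norm_div]
    exact div_le_div₀ (by positivity) (norm_mul_le_of_le z r1) (Real.exp_pos _) hz
  refine (norm_mul_le_of_le (norm_mul_le_of_le (norm_mul_le_of_le (g.trans g2) w) q) r2).trans ?_
  rw [← Real.exp_add, ← Real.exp_add, ← Real.exp_sub, ← Real.exp_add, ← Real.exp_add,
    Real.exp_le_one_iff]
  have : 40000 * L ^ 2 ≤ L ^ 4 := by nlinarith [sq_nonneg L, pow_le_pow_left₀ (by norm_num) L1 2]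
  nlinarith

end

lemma small_err {T L : ℝ} (hL : L = Real.log T) (L1 : 200 ≤ L) (T1 : 10 * L ^ 5 ≤ T) {X : ℕ}
    (X4 : (X : ℝ) ≤ T) : 2 * (X : ℝ) ^ 5 * (4 * T * Real.exp (-(L ^ 4 / 64))) ≤ 1 := by
  obtain ⟨T3, T2⟩ := big L1 T1
  have T0 : 0 < T := by linarith
  have eT : Real.exp L = T := by rw [hL]; exact Real.exp_log T0
  have a1 : (X : ℝ) ^ 5 ≤ T ^ 5 := pow_le_pow_left₀ (by positivity) X4 5
  have a2 : 2 * (X : ℝ) ^ 5 * (4 * T) ≤ Real.exp (7 * L) := by
    rw [← Nat.cast_ofNat (R := ℝ) (n := 7), Real.exp_nat_mul, eT]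
    have : 0 < T ^ 5 := by positivity
    calc _ ≤ 2 * T ^ 5 * (4 * T) := by gcongr
      _ = 8 * (T ^ 5 * T) := by ring
      _ ≤ T * (T ^ 5 * T) := by gcongr; linarith
      _ = _ := by ring
  rw [← mul_assoc]
  refine (mul_le_mul_of_nonneg_right a2 (Real.exp_pos _).le).trans ?_
  rw [← Real.exp_add, Real.exp_le_one_iff]
  have : 40000 * L ^ 2 ≤ L ^ 4 := by nlinarith [sq_nonneg L, pow_le_pow_left₀ (by norm_num) L1 2]
  nlinarith

lemma finish {h K C c l : ℝ} {J e E D : ℂ} (h0 : 0 < h) (h1 : h ≤ 1) (K1 : 1 / 3 ≤ K) (C0 : 0 ≤ C)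
    (l1 : 4 * (142 + 29 * C) ≤ l) (c4 : 1 / 4 ≤ c) (c5 : c ≤ 2) (e1 : ‖e‖ = 1) (hE : ‖E‖ ≤ 2 / h)
    (hK : ‖J - e * K‖ ≤ 28 * h * K) (hc : ‖D - c * E‖ ≤ C) (ph : (e * E).im ≤ -l) :
    (J * D).im ≤ -10 := by
  have d1 : ‖D‖ ≤ 4 / h + C := by
    have a := norm_le_norm_sub_add D (c * E)
    have b : ‖(c : ℂ) * E‖ ≤ 2 * (2 / h) := norm_mul_le_of_le
      (by rw [norm_real, Real.norm_of_nonneg (by linarith)]; exact c5) hE
    have : 2 * (2 / h) = 4 / h := by ring
    linarith
  have d2 : J * D = (K * c : ℝ) * (e * E) + (e * K * (D - c * E) + (J - e * K) * D) := by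
    push_cast; ring
  have d3 : ‖e * K * (D - c * E) + (J - e * K) * D‖ ≤ K * (112 + 29 * C) := by
    have a : ‖e * K‖ ≤ K := by rw [norm_mul, e1, norm_real, Real.norm_of_nonneg (by linarith)]; simp
    refine ((norm_add_le _ _).trans (add_le_add (norm_mul_le_of_le a hc)
      (norm_mul_le_of_le hK d1))).trans ?_
    have b : 28 * h * K * (4 / h + C) = K * (112 + 28 * (h * C)) := by field_simp; ring
    have : h * C ≤ C := by nlinarith
    rw [b]
    nlinarith
  rw [d2, add_im, im_ofReal_mul]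
  have a := (le_abs_self _).trans ((abs_im_le_norm _).trans d3)
  have b : K * c * (e * E).im ≤ K * c * -l := mul_le_mul_of_nonneg_left ph (by positivity)
  have : K * (1 / 4 * l) ≤ K * (c * l) := by
    refine mul_le_mul_of_nonneg_left ?_ (by linarith); nlinarith
  nlinarith

theorem not_gap : ∀ᶠ T : ℝ in atTop,
    ¬ Gap T (Real.pi / Real.log T * (1 + 10 * Real.log (Real.log T) / Real.log T)) := by
  obtain ⟨C, C0, hC⟩ := DD_est
  have lt := Real.tendsto_log_atTop
  filter_upwards [zeta_upper', zeta_horiz, lt.eventually_ge_atTop 200,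
    (lt.comp lt).eventually_ge_atTop (4 * (142 + 29 * C)),
    (Real.isLittleO_pow_log_id_atTop (n := 5)).bound (show (0 : ℝ) < 1 / 10 by norm_num),
    lt.eventually (Real.isLittleO_log_id_atTop.bound (show (0 : ℝ) < 1 / 20 by norm_num)),
    eventually_gt_atTop 0] with T hU hZ L1 l1 T1 l2 T0 hG
  set L := Real.log T with hL
  set l := Real.log L with hl
  have l1' : 4 * (142 + 29 * C) ≤ l := l1
  have L0 : 0 < L := by linarith
  rw [Real.norm_of_nonneg (by positivity), id, Real.norm_of_nonneg T0.le] at T1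
  rw [Real.norm_of_nonneg (by linarith), id, Real.norm_of_nonneg L0.le] at l2
  replace T1 : 10 * L ^ 5 ≤ T := by linarith
  obtain ⟨T3, T2⟩ := big L1 T1
  set h := Real.pi / L * (1 + 10 * l / L) with hh
  have p0 := Real.pi_gt_three
  have p1 := Real.pi_le_four
  have u0 : 0 ≤ 10 * l / L := div_nonneg (by linarith) L0.le
  have u1 : 10 * l / L ≤ 1 / 2 := by rw [div_le_iff₀ L0]; linarith
  have h1 : 3 / L ≤ h := by
    rw [hh, div_mul_eq_mul_div]
    exact div_le_div_of_nonneg_right (by nlinarith) L0.le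
  have h2 : 24 * h ≤ 1 := by
    rw [hh, div_mul_eq_mul_div, ← mul_div_assoc, div_le_iff₀ L0]; nlinarith
  have h0 : 0 < h := lt_of_lt_of_le (by positivity) h1
  obtain ⟨A, A0, hA⟩ := good_height hG h0 (3 * T / 2 - T / 4 - 1)
  obtain ⟨B, B0, hB⟩ := good_height hG h0 (3 * T / 2 + T / 4 + 1)
  rw [abs_le] at A0 B0
  have A1 : T + 4 ≤ A := by linarith [A0.1]
  have A2 : A ≤ 3 * T / 2 - T / 4 := by linarith [A0.2]
  have B1 : 3 * T / 2 + T / 4 ≤ B := by linarith [B0.1]
  have B2 : B + 4 ≤ 2 * T := by linarith [B0.2]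
  have hAB : A ≤ B := by linarith
  set X := ⌊T / L ^ 5⌋₊ with hX
  have Y1 : 10 ≤ T / L ^ 5 := by rw [le_div_iff₀ (by positivity)]; exact T1
  have X2 : (X : ℝ) ≤ T / L ^ 5 := Nat.floor_le (by positivity)
  have X3 : T / L ^ 5 < X + 1 := Nat.lt_floor_add_one _
  have X1 : 2 ≤ X := by
    have : (2 : ℝ) ≤ X := by linarith
    exact_mod_cast this
  have X4 : (X : ℝ) ≤ T := X2.trans (div_le_self T0.le (one_le_pow₀ (by linarith)))
  have y2 : Real.log X ≤ L := Real.log_le_log (by linarith) X4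
  have y1 : L - 5 * l - 1 ≤ Real.log X := by
    have a := Real.log_le_log (by positivity) (show T / L ^ 5 ≤ 2 * X by linarith)
    rw [Real.log_div T0.ne' (by positivity), Real.log_pow, Real.log_mul (by norm_num)
      (by linarith)] at a
    have := Real.log_two_lt_d9
    push_cast at a
    linarith
  have c1 := contour (X := X) (H := T / L ^ 2) (M := 1) hG T0 h0 (by linarith) hAB (by linarith)
    hA hB fun x hx =>
      ⟨horiz hL L1 T1 h1 h2 X4 hx (by linarith) (by linarith) (by nlinarith) hU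
        (hZ h A x hG h1 A1 (by linarith) hA hx),
       horiz hL L1 T1 h1 h2 X4 hx (by linarith) B2 (by nlinarith) hU
        (hZ h B x hG h1 (by linarith) B2 hB hx)⟩
  have pos : ∀ t ∈ uIcc A B, 0 < (4 + t * I : ℂ).im := fun t ht => by
    rw [uIcc_of_le hAB] at ht; simp; linarith [ht.1]
  have ln : Continuous fun t : ℝ => (4 : ℂ) + t * I := by fun_prop
  have c2 := expand (X := X) (h := h) (A := A) (B := B) (ε := 4 * T * Real.exp (-(L ^ 4 / 64)))
    (Ψ := fun t => GG h (4 + t * I) * WW T (T / L ^ 2) (4 + t * I))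
    (Z := fun t => riemannZeta (4 + t * I + I * h) * RR X h (4 + t * I) / riemannZeta (4 + t * I))
    (by positivity)
    (fun t ht => by
      refine (ContinuousAt.mul (ContinuousAt.comp (f := fun t : ℝ => (4 : ℂ) + t * I)
        (diff_GG h0.le (pos t ht)).continuousAt ln.continuousAt) ?_).continuousWithinAt
      unfold WW; fun_prop)
    (fun t ht => by
      have := pos t ht
      refine (ContinuousAt.div (ContinuousAt.mul
        (ContinuousAt.comp (f := fun t : ℝ => (4 : ℂ) + t * I + I * h)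
          (diff_zeta (by simp at this ⊢; linarith)).continuousAt (by fun_prop)) ?_)
        (ContinuousAt.comp (f := fun t : ℝ => (4 : ℂ) + t * I)
          (diff_zeta this.ne').continuousAt ln.continuousAt)
        (riemannZeta_ne_zero_of_one_lt_re (by simp))).continuousWithinAt
      unfold RR; fun_prop)
    (fun t => hasSum_bb X h (by simp))
    (osc L1 T1 h1 h2 A1 A2 B1 B2 (by omega) X2)
  rw [← integral_congr (f := fun t : ℝ => FF X h T (T / L ^ 2) (4 + t * I))
    fun t ht => FF_eq X h0.le _ _ (pos t ht)] at c2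
  have c3 := small_err hL L1 T1 X4
  obtain ⟨K, K1, hK⟩ := diag hL L1 T1 h1 h2 A1 A2 B1 B2
  obtain ⟨c, c4, c5, hc⟩ := hC X h X1 h0 (by linarith)
  have ph := phase (L := L) (l := l) (by linarith) (by linarith) y1 y2 hh
  have d4 := finish h0 (by linarith) K1 C0 l1' c4 c5 (by rw [norm_exp]; simp) (norm_EE h0 _) hK hc ph
  have d5 := (le_abs_self _).trans ((abs_im_le_norm _).trans (c2.trans c3))
  rw [sub_im] at d5
  linarith

end Pool.Agent.MP_f0209c_nt
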